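import Pool.Agent.H763_sn.Fourier

/-!
The exact model: `V = (R × R) × (R × R)` with `R = 𝔽₂[t]/(t^(N+1))`.
-/

set_option autoImplicit false
set_option linter.unusedSectionVars false

namespace Pool.Agent.H763sn

open Equiv

section Shift

variable {N : ℕ}

/-- multiplication by `t` -/
def Tm (y : Fin (N+1) → ZMod 2) : Fin (N+1) → ZMod 2 := Fin.cons 0 (fun i : Fin N => y i.castSucc)

/-- its adjoint -/
def Tadj (b : Fin (N+1) → ZMod 2) : Fin (N+1) → ZMod 2 := Fin.snoc (fun i : Fin N => b i.succ) 0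

lemma Tm_adj (b y : Fin (N+1) → ZMod 2) : b ⬝ᵥ Tm y = Tadj b ⬝ᵥ y := by
  unfold dotProduct Tm Tadj
  rw [Fin.sum_univ_succ, Fin.sum_univ_castSucc]
  simp

lemma Tm_add (y z : Fin (N+1) → ZMod 2) : Tm (y + z) = Tm y + Tm z := by
  funext i
  refine Fin.cases ?_ (fun j => ?_) i
  · simp [Tm]
  · simp [Tm]

/-- extension of `b` by `1` -/
def ext1 (b : Fin (N+1) → ZMod 2) (i : ℕ) : ZMod 2 := if h : i < N+1 then b ⟨i, h⟩ else 1

lemma ext1_of_lt (b : Fin (N+1) → ZMod 2) {i : ℕ} (h : i < N+1) : ext1 b i = b ⟨i, h⟩ := by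
  simp [ext1, h]

lemma exists_ext1 (b : Fin (N+1) → ZMod 2) : ∃ i, ext1 b i ≠ 0 := ⟨N+1, by simp [ext1]⟩

/-- index of the first nonzero entry (`N+1` for the zero vector) -/
def val (b : Fin (N+1) → ZMod 2) : ℕ := Nat.find (exists_ext1 b)

lemma val_spec (b : Fin (N+1) → ZMod 2) : ext1 b (val b) ≠ 0 := Nat.find_spec (exists_ext1 b)

lemma val_min (b : Fin (N+1) → ZMod 2) {i : ℕ} (h : i < val b) : ext1 b i = 0 := by
  have := Nat.find_min (exists_ext1 b) h
  push Not at this; exact this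

lemma val_eq {b : Fin (N+1) → ZMod 2} {m : ℕ} (h : ext1 b m ≠ 0) (h' : ∀ i < m, ext1 b i = 0) :
    val b = m := by
  apply le_antisymm
  · exact Nat.find_min' (exists_ext1 b) h
  · by_contra hc
    push Not at hc
    exact val_spec b (h' _ hc)

lemma val_le (b : Fin (N+1) → ZMod 2) : val b ≤ N + 1 :=
  Nat.find_min' (exists_ext1 b) (by simp [ext1])

lemma val_lt_iff (b : Fin (N+1) → ZMod 2) : val b < N + 1 ↔ b ≠ 0 := by
  constructor
  · intro h hb
    subst hb
    have := val_spec (0 : Fin (N+1) → ZMod 2)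
    simp [ext1, h] at this
  · intro hb
    by_contra hc
    push Not at hc
    apply hb
    funext i
    have h1 : i.1 < val b := lt_of_lt_of_le i.2 hc
    have := val_min b h1
    simpa [ext1, i.2] using this

lemma val_add_of_lt {b c : Fin (N+1) → ZMod 2} (h : val b < val c) : val (c + b) = val b := by
  have h1 : val b < N + 1 := lt_of_lt_of_le h (val_le c)
  apply val_eq
  · have h2 := val_min c h
    have h3 := val_spec b
    simp only [ext1, h1, dif_pos] at *
    simp [h2, h3]
  · intro i hi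
    have h2 := val_min c (hi.trans h)
    have h3 := val_min b hi
    have h4 : i < N + 1 := hi.trans h1
    simp only [ext1, h4, dif_pos] at *
    simp [h2, h3]

lemma val_Tadj {b : Fin (N+1) → ZMod 2} (hb : b ≠ 0) (h0 : b 0 = 0) : val (Tadj b) < val b := by
  have h1 := (val_lt_iff b).2 hb
  have h2 : val b ≠ 0 := by
    intro h
    have := val_spec b
    rw [h] at this
    simp only [ext1, Nat.zero_lt_succ, dif_pos] at this
    exact this h0
  obtain ⟨m, hm⟩ := Nat.exists_eq_succ_of_ne_zero h2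
  have h3 : ext1 (Tadj b) m ≠ 0 := by
    have h4 := val_spec b
    rw [hm] at h4 h1
    have h5 : m < N := by omega
    have h6 : m < N + 1 := by omega
    have h7 : m.succ < N + 1 := by omega
    rw [ext1_of_lt _ h7] at h4
    rw [ext1_of_lt _ h6]
    have h8 : (⟨m, h6⟩ : Fin (N+1)) = Fin.castSucc ⟨m, h5⟩ := rfl
    rw [h8]
    simp only [Tadj, Fin.snoc_castSucc]
    exact h4
  have h9 : val (Tadj b) ≤ m := Nat.find_min' (exists_ext1 _) h3
  omega

end Shift

section Model

variable (N : ℕ)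

abbrev Rg := Fin (N+1) → ZMod 2
abbrev VV := (Rg N × Rg N) × (Rg N × Rg N)

variable {N}

/-- the pairing -/
def BB (k x : VV N) : ZMod 2 :=
  (k.1.1 ⬝ᵥ x.1.1 + k.1.2 ⬝ᵥ x.1.2) + (k.2.1 ⬝ᵥ x.2.1 + k.2.2 ⬝ᵥ x.2.2)

lemma rg_two (x : Rg N) : x + x = 0 := by
  funext i
  simp only [Pi.add_apply, Pi.zero_apply]
  exact CharTwo.add_self_eq_zero _

lemma BB_pair : IsPair (BB (N := N)) where
  add_left := by
    intro k k' x
    simp only [BB, Prod.fst_add, Prod.snd_add, add_dotProduct]
    ring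
  add_right := by
    intro k x x'
    simp only [BB, Prod.fst_add, Prod.snd_add, dotProduct_add]
    ring
  nondeg := by
    intro x hx
    by_contra hc
    push Not at hc
    apply hx
    have h1 : ∀ i, x.1.1 i = 0 := by
      intro i
      have := hc ((Pi.single i 1, 0), (0, 0))
      simpa [BB] using this
    have h2 : ∀ i, x.1.2 i = 0 := by
      intro i
      have := hc ((0, Pi.single i 1), (0, 0))
      simpa [BB] using this
    have h3 : ∀ i, x.2.1 i = 0 := by
      intro i
      have := hc ((0, 0), (Pi.single i 1, 0))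
      simpa [BB] using this
    have h4 : ∀ i, x.2.2 i = 0 := by
      intro i
      have := hc ((0, 0), (0, Pi.single i 1))
      simpa [BB] using this
    ext i
    · exact h1 i
    · exact h2 i
    · exact h3 i
    · exact h4 i
  two := by
    intro x
    ext i
    · exact congrFun (rg_two x.1.1) i
    · exact congrFun (rg_two x.1.2) i
    · exact congrFun (rg_two x.2.1) i
    · exact congrFun (rg_two x.2.2) i

def L1 (x : VV N) : VV N := (x.1, (x.2.1 + x.2.2, x.2.2))
def L1' (k : VV N) : VV N := (k.1, (k.2.1, k.2.2 + k.2.1))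
def L2 (x : VV N) : VV N := (x.1, (x.2.1 + Tm x.2.2, x.2.2))
def L2' (k : VV N) : VV N := (k.1, (k.2.1, k.2.2 + Tadj k.2.1))
def L3 (x : VV N) : VV N := (x.1, (x.2.2, x.2.1))
def L4 (x : VV N) : VV N := ((x.1.1 + x.2.1, x.1.2 + x.2.2), x.2)
def L4' (k : VV N) : VV N := (k.1, (k.2.1 + k.1.1, k.2.2 + k.1.2))
def v5 : VV N := ((0, 0), (Pi.single 0 1, 0))

lemma add_cancel2 (a b : Rg N) : a + b + b = a := by
  rw [add_assoc, rg_two, add_zero]

lemma L1_inv (x : VV N) : L1 (L1 x) = x := by simp [L1, add_cancel2]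
lemma L1'_inv (x : VV N) : L1' (L1' x) = x := by simp [L1', add_cancel2]
lemma L2_inv (x : VV N) : L2 (L2 x) = x := by simp [L2, add_cancel2]
lemma L2'_inv (x : VV N) : L2' (L2' x) = x := by simp [L2', add_cancel2]
lemma L3_inv (x : VV N) : L3 (L3 x) = x := by simp [L3]
lemma L4_inv (x : VV N) : L4 (L4 x) = x := by simp [L4, add_cancel2]
lemma L4'_inv (x : VV N) : L4' (L4' x) = x := by simp [L4', add_cancel2]

lemma L1_add (x y : VV N) : L1 (x + y) = L1 x + L1 y := by
  ext i <;> simp [L1]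
  ring
lemma L2_add (x y : VV N) : L2 (x + y) = L2 x + L2 y := by
  ext i <;> simp [L2, Tm_add]
  ring
lemma L3_add (x y : VV N) : L3 (x + y) = L3 x + L3 y := by
  ext i <;> simp [L3]
lemma L4_add (x y : VV N) : L4 (x + y) = L4 x + L4 y := by
  ext i <;> simp [L4] <;> ring

lemma adj1 (k x : VV N) : BB k (L1 x) = BB (L1' k) x := by
  simp only [BB, L1, L1', dotProduct_add, add_dotProduct]; ring
lemma adj2 (k x : VV N) : BB k (L2 x) = BB (L2' k) x := by
  simp only [BB, L2, L2', dotProduct_add, add_dotProduct, Tm_adj]; ring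
lemma adj3 (k x : VV N) : BB k (L3 x) = BB (L3 k) x := by
  simp only [BB, L3]; ring
lemma adj4 (k x : VV N) : BB k (L4 x) = BB (L4' k) x := by
  simp only [BB, L4, L4', dotProduct_add, add_dotProduct]; ring

lemma BB_v5 (k : VV N) : BB k v5 = k.2.1 0 := by
  simp [BB, v5]

/-- spectral gap: the main estimate -/
lemma nu_nonzero_le (f : VV N → VV N) {D : ℝ}
    (h1 : pr (fun x => f (L1 x) ≠ L1 (f x)) ≤ D) (h2 : pr (fun x => f (L2 x) ≠ L2 (f x)) ≤ D)
    (h3 : pr (fun x => f (L3 x) ≠ L3 (f x)) ≤ D) (h4 : pr (fun x => f (L4 x) ≠ L4 (f x)) ≤ D)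
    (h5 : pr (fun x => f (x + v5) ≠ f x) ≤ D) : nu BB f (fun k => k ≠ 0) ≤ 1000 * D := by
  have hB := BB_pair (N := N)
  have hD : 0 ≤ D := le_trans (pr_nonneg _) h1
  let A : VV N → Prop := fun k => val k.2.1 < val k.2.2
  let Bc : VV N → Prop := fun k => val k.2.2 < val k.2.1
  let C : VV N → Prop := fun k => val k.2.1 = val k.2.2 ∧ k.2.1 ≠ 0
  let Z : VV N → Prop := fun k => k.2 = 0 ∧ k.1 ≠ 0
  have e3 := nu_move hB f L3 L3 L3_inv L3_inv adj3 Bc A (fun k hk => hk)
  have e2 := nu_move hB f L2 L2' L2_inv L2'_inv adj2 (fun k => (A k ∨ C k) ∧ k.2.1 0 = 0) Bc (by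
    rintro k ⟨hk, hk0⟩
    have hb : k.2.1 ≠ 0 := by
      rcases hk with hk | hk
      · exact (val_lt_iff _).1 (lt_of_lt_of_le hk (val_le _))
      · exact hk.2
    have hle : val k.2.1 ≤ val k.2.2 := by
      rcases hk with hk | hk
      · exact le_of_lt hk
      · exact le_of_eq hk.1
    have h6 := val_Tadj hb hk0
    change val (k.2.2 + Tadj k.2.1) < val k.2.1
    rw [val_add_of_lt (lt_of_lt_of_le h6 hle)]
    exact h6)
  have e5 := nu_trans hB f v5
  have e1 := nu_move hB f L1 L1' L1_inv L1'_inv adj1 A C (by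
    intro k hk
    constructor
    · change val k.2.1 = val (k.2.2 + k.2.1)
      rw [val_add_of_lt hk]
    · exact (val_lt_iff _).1 (lt_of_lt_of_le hk (val_le _)))
  have e4 := nu_move hB f L4 L4' L4_inv L4'_inv adj4 Z (fun k => A k ∨ Bc k ∨ C k) (by
    rintro k ⟨hk, hk1⟩
    have hk2 : L4' k = (k.1, k.1) := by
      simp [L4', hk]
    rw [hk2]
    by_cases hA : val k.1.1 < val k.1.2
    · exact Or.inl hA
    · by_cases hBc : val k.1.2 < val k.1.1
      · exact Or.inr (Or.inl hBc)
      · right; right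
        have heq : val k.1.1 = val k.1.2 := by omega
        refine ⟨heq, ?_⟩
        intro h0
        apply hk1
        have h01 : val k.1.1 = N + 1 := by
          have := mt (val_lt_iff k.1.1).1 (by simpa using h0)
          have := val_le k.1.1
          omega
        have h02 : k.1.2 = 0 := by
          by_contra hne
          have := (val_lt_iff k.1.2).2 hne
          omega
        exact Prod.ext h0 h02)
  -- combine
  have c1 : nu BB f A + nu BB f C ≤ nu BB f (fun k => A k ∨ C k) :=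
    nu_disj f A C (fun k hA hC => by
      have h6 : val k.2.1 < val k.2.2 := hA
      have h7 := hC.1
      omega)
  have c2 : nu BB f (fun k => A k ∨ C k) ≤ nu BB f (fun k => (A k ∨ C k) ∧ k.2.1 0 = 0) + nu BB f (fun k => BB k v5 ≠ 0) := by
    refine le_trans (nu_mono f ?_) (nu_or_le f _ _)
    intro k hk
    by_cases h0 : k.2.1 0 = 0
    · exact Or.inl ⟨hk, h0⟩
    · right; rw [BB_v5]; exact h0
  have c3 : nu BB f (fun k => A k ∨ Bc k ∨ C k) ≤ nu BB f A + (nu BB f Bc + nu BB f C) := by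
    have := nu_or_le (B := BB) f A (fun k => Bc k ∨ C k)
    have h6 := nu_or_le (B := BB) f Bc C
    linarith
  have c4 : nu BB f (fun k => k ≠ 0) ≤ nu BB f (fun k => A k ∨ Bc k ∨ C k) + nu BB f Z := by
    refine le_trans (nu_mono f ?_) (nu_or_le f _ _)
    intro k hk
    by_cases hA : val k.2.1 < val k.2.2
    · exact Or.inl (Or.inl hA)
    · by_cases hBc : val k.2.2 < val k.2.1
      · exact Or.inl (Or.inr (Or.inl hBc))
      · have heq : val k.2.1 = val k.2.2 := by omega
        by_cases h0 : k.2.1 = 0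
        · right
          have h01 : val k.2.1 = N + 1 := by
            have := mt (val_lt_iff k.2.1).1 (by simpa using h0)
            have := val_le k.2.1
            omega
          have h02 : k.2.2 = 0 := by
            by_contra hne
            have := (val_lt_iff k.2.2).2 hne
            omega
          have h03 : k.2 = 0 := Prod.ext h0 h02
          exact ⟨h03, fun h04 => hk (Prod.ext h04 h03)⟩
        · exact Or.inl (Or.inr (Or.inr ⟨heq, h0⟩))
  linarith

lemma near_const_fix (f : VV N → VV N) {D : ℝ} (hD : 2001 * D < 1)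
    (h1 : pr (fun x => f (L1 x) ≠ L1 (f x)) ≤ D) (h2 : pr (fun x => f (L2 x) ≠ L2 (f x)) ≤ D)
    (h3 : pr (fun x => f (L3 x) ≠ L3 (f x)) ≤ D) (h4 : pr (fun x => f (L4 x) ≠ L4 (f x)) ≤ D)
    (h5 : pr (fun x => f (x + v5) ≠ f x) ≤ D) :
    ∃ p : Rg N × Rg N, pr (fun x => f x ≠ (p, 0)) ≤ 1000 * D := by
  obtain ⟨y, hy⟩ := near_const (BB_pair (N := N)) f
  have hn := nu_nonzero_le f h1 h2 h3 h4 h5
  have h0 : pr (fun x => f x ≠ y) ≤ 1000 * D := by
    have := pr_not (fun x => f x = y)
    have h6 : pr (fun x => ¬ (f x = y)) = pr (fun x => f x ≠ y) := rfl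
    linarith
  have key : ∀ L : VV N → VV N, (∀ x, L (L x) = x) → pr (fun x => f (L x) ≠ L (f x)) ≤ D → L y = y := by
    intro L hL hLD
    have h6 : pr (fun x => f (L x) ≠ y) = pr (fun x => f x ≠ y) :=
      pr_equiv (⟨L, L, hL, hL⟩ : VV N ≃ VV N) (fun x => f x ≠ y)
    have h7 : pr (fun x => f x ≠ y ∨ f (L x) ≠ y ∨ f (L x) ≠ L (f x)) < 1 := by
      have := pr_le_add3 (p := fun x => f x ≠ y ∨ f (L x) ≠ y ∨ f (L x) ≠ L (f x))
        (q := fun x => f x ≠ y) (r := fun x => f (L x) ≠ y) (s := fun x => f (L x) ≠ L (f x)) (fun x h => h)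
      linarith
    obtain ⟨x, hx⟩ := exists_of_pr_lt h7
    push Not at hx
    obtain ⟨a1, a2, a3⟩ := hx
    rw [a1, a2] at a3
    exact a3.symm
  have k1 := key L1 L1_inv h1
  have k3 := key L3 L3_inv h3
  have m1 : y.2.2 = 0 := by
    have := congrArg (fun z : VV N => z.2.1) k1
    simp only [L1] at this
    exact add_eq_left.1 this
  have m2 : y.2.1 = 0 := by
    have := congrArg (fun z : VV N => z.2.2) k3
    simp only [L3] at this
    rw [this, m1]
  refine ⟨y.1, ?_⟩
  have : ((y.1, 0) : VV N) = y := Prod.ext rfl (Prod.ext m2.symm m1.symm)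
  rw [this]; exact h0

end Model

end Pool.Agent.H763sn
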