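import Pool.Agent.H763_sn.QuotAct
import Pool.Agent.H763_sn.Model

/-!
The matrix of the sentence: lower bound away from powers of two, and vanishing on the model.
-/

set_option autoImplicit false
set_option linter.unusedSectionVars false

namespace Pool.Agent.H763sn

open Equiv

/-- the constants of the sentence -/
noncomputable def cK : ℝ := 20000
noncomputable def e0 : ℝ := 1 / 1000000000000000
noncomputable def cK4 : ℝ := 2000000000000000
noncomputable def cM : ℝ := 5000000000000000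

section Body

variable {α : Type} [Fintype α]

noncomputable def dl (x : Fin 6 → Perm α) (a : Perm α) : ℝ :=
  hd (a * x 0) (x 0 * a) + hd (a * x 1) (x 1 * a) + hd (a * x 2) (x 2 * a) +
    hd (a * x 3) (x 3 * a) + hd (a * x 4) (x 4 * a)

def cj (x : Fin 6 → Perm α) (b : Perm α) : Perm α := x 5 * b * (x 5)⁻¹

noncomputable def Psi1 (x : Fin 6 → Perm α) (a b : Perm α) : ℝ :=
  hd (a * b) (b * a) + hd (a * a) 1 + hd (a * cj x b) (cj x b * a) +
    hd (a * cj x b) 1 * (1 - hd (a * cj x b) 1) - cK * (dl x a + dl x b)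

noncomputable def Psi2 (x : Fin 6 → Perm α) (g a b : Perm α) : ℝ :=
  hd g (a * cj x b) + cM * (dl x a + dl x b)

noncomputable def Psi3 (x : Fin 6 → Perm α) (g c : Perm α) : ℝ :=
  hd (g * c) (c * g) + hd (g * cj x c) (cj x c * g) - cK4 * dl x c

noncomputable def body (x : Fin 6 → Perm α) : ℝ :=
  (⨆ a, ⨆ b, Psi1 x a b) + (⨆ g, ((⨅ a, ⨅ b, Psi2 x g a b) - 2 * ⨆ c, Psi3 x g c))

lemma dl_nonneg (x : Fin 6 → Perm α) (a : Perm α) : 0 ≤ dl x a := by
  unfold dl
  have h0 := hd_nonneg (a * x 0) (x 0 * a)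
  have h1 := hd_nonneg (a * x 1) (x 1 * a)
  have h2 := hd_nonneg (a * x 2) (x 2 * a)
  have h3 := hd_nonneg (a * x 3) (x 3 * a)
  have h4 := hd_nonneg (a * x 4) (x 4 * a)
  linarith

lemma dl_one (x : Fin 6 → Perm α) : dl x 1 = 0 := by
  unfold dl; simp [hd_self]

lemma cj_one (x : Fin 6 → Perm α) : cj x 1 = 1 := by
  unfold cj; simp

lemma cj_mul (x : Fin 6 → Perm α) (a b : Perm α) : cj x (a * b) = cj x a * cj x b := by
  unfold cj; group

lemma hd_cj (x : Fin 6 → Perm α) (a b : Perm α) : hd (cj x a) (cj x b) = hd a b := by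
  unfold cj; exact hd_conj _ _ _

lemma bA {ι : Type} [Finite ι] (f : ι → ℝ) : BddAbove (Set.range f) := (Set.finite_range f).bddAbove
lemma bB {ι : Type} [Finite ι] (f : ι → ℝ) : BddBelow (Set.range f) := (Set.finite_range f).bddBelow

lemma le_sup2 {ι : Type} [Finite ι] (f : ι → ι → ℝ) (a b : ι) : f a b ≤ ⨆ a, ⨆ b, f a b :=
  (le_ciSup (bA (fun b => f a b)) b).trans (le_ciSup (bA (fun a => ⨆ b, f a b)) a)

lemma inf2_le {ι : Type} [Finite ι] (f : ι → ι → ℝ) (a b : ι) : ⨅ a, ⨅ b, f a b ≤ f a b :=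
  (ciInf_le (bB (fun a => ⨅ b, f a b)) a).trans (ciInf_le (bB (fun b => f a b)) b)

lemma Q1_nonneg (x : Fin 6 → Perm α) : 0 ≤ ⨆ a, ⨆ b, Psi1 x a b := by
  classical
  refine le_trans (le_of_eq ?_) (le_sup2 (Psi1 x) 1 1)
  unfold Psi1
  simp [cj_one, hd_self, dl_one]

lemma Q2_nonneg (x : Fin 6 → Perm α) :
    0 ≤ ⨆ g, ((⨅ a, ⨅ b, Psi2 x g a b) - 2 * ⨆ c, Psi3 x g c) := by
  classical
  refine le_trans ?_ (le_ciSup (bA (fun g => ((⨅ a, ⨅ b, Psi2 x g a b) - 2 * ⨆ c, Psi3 x g c))) 1)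
  have h1 : 0 ≤ ⨅ a, ⨅ b, Psi2 x 1 a b := by
    apply le_ciInf; intro a
    apply le_ciInf; intro b
    unfold Psi2
    have h1 := hd_nonneg 1 (a * cj x b)
    have h2 := dl_nonneg x a
    have h3 := dl_nonneg x b
    have h4 : (0:ℝ) ≤ cM := by unfold cM; norm_num
    positivity
  have h2 : ⨆ c, Psi3 x 1 c ≤ 0 := by
    apply ciSup_le; intro c
    unfold Psi3
    simp only [one_mul, mul_one, hd_self]
    have h2 := dl_nonneg x c
    have h4 : (0:ℝ) ≤ cK4 := by unfold cK4; norm_num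
    have := mul_nonneg h4 h2
    linarith
  linarith

lemma body_nonneg (x : Fin 6 → Perm α) : 0 ≤ body x := by
  have h1 := Q1_nonneg x
  have h2 := Q2_nonneg x
  unfold body; linarith

lemma comm_mul_le' (a b c : Perm α) :
    hd (c * (a * b)) (a * b * c) ≤ hd (c * a) (a * c) + hd (c * b) (b * c) := by
  have := comm_mul_le a b c
  rw [hd_comm (a * b * c), hd_comm (a * c), hd_comm (b * c)] at this
  exact this

theorem loose (x : Fin 6 → Perm α) (h2 : 2 ≤ Fintype.card α) (hb : body x < e0) :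
    ∃ i : ℕ, (9/10 : ℝ) * Fintype.card α ≤ 2 ^ i ∧ (2:ℝ) ^ i ≤ 11/10 * Fintype.card α := by
  classical
  have hQ1 := Q1_nonneg x
  have hQ2 := Q2_nonneg x
  have hP1 : ∀ a b, Psi1 x a b ≤ e0 := by
    intro a b
    have := le_sup2 (Psi1 x) a b
    unfold body at hb
    linarith
  have hP2 : ∀ g, (⨅ a, ⨅ b, Psi2 x g a b) - 2 * (⨆ c, Psi3 x g c) < e0 := by
    intro g
    have := le_ciSup (bA (fun g => ((⨅ a, ⨅ b, Psi2 x g a b) - 2 * ⨆ c, Psi3 x g c))) g
    unfold body at hb
    linarith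
  set ε1 : ℝ := 40001 * e0 with hε1
  have he0 : (0:ℝ) < e0 := by unfold e0; norm_num
  -- consequences for `D`
  have hD : ∀ a b, dl x a ≤ e0 → dl x b ≤ e0 → hd (a * b) (b * a) ≤ ε1 ∧ hd (a * a) 1 ≤ ε1 ∧
      hd (a * cj x b) (cj x b * a) ≤ ε1 ∧ hd (a * cj x b) 1 * (1 - hd (a * cj x b) 1) ≤ ε1 := by
    intro a b ha hb
    have h1 := hP1 a b
    unfold Psi1 cK at h1
    have n1 := hd_nonneg (a * b) (b * a)
    have n2 := hd_nonneg (a * a) 1
    have n3 := hd_nonneg (a * cj x b) (cj x b * a)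
    have n4 : 0 ≤ hd (a * cj x b) 1 * (1 - hd (a * cj x b) 1) :=
      mul_nonneg (hd_nonneg _ _) (by have := hd_le_one (a * cj x b) 1; linarith)
    refine ⟨?_, ?_, ?_, ?_⟩ <;> linarith
  have hD1 : ∀ a b, dl x a ≤ e0 → dl x b ≤ e0 → hd (a * b) (b * a) ≤ ε1 := fun a b ha hb => (hD a b ha hb).1
  have hD2 : ∀ a, dl x a ≤ e0 → hd (a * a) 1 ≤ ε1 := fun a ha => (hD a a ha ha).2.1
  have hD3 : ∀ a b, dl x a ≤ e0 → dl x b ≤ e0 → hd (a * cj x b) (cj x b * a) ≤ ε1 :=
    fun a b ha hb => (hD a b ha hb).2.2.1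
  have hD4 : ∀ a b, dl x a ≤ e0 → dl x b ≤ e0 → hd (a * cj x b) 1 * (1 - hd (a * cj x b) 1) ≤ ε1 :=
    fun a b ha hb => (hD a b ha hb).2.2.2
  -- the approximation property
  have hA : ∀ (g : Perm α) (θ : ℝ), (∀ c, dl x c ≤ e0 → hd (g * c) (c * g) ≤ θ ∧
      hd (g * cj x c) (cj x c * g) ≤ θ) → ∃ a b, dl x a ≤ e0 ∧ dl x b ≤ e0 ∧ hd g (a * cj x b) ≤ 4 * θ + e0 := by
    intro g θ hθ
    have hθ0 : 0 ≤ θ := le_trans (hd_nonneg _ _) (hθ 1 (by rw [dl_one]; exact he0.le)).1
    by_cases h4 : 1 ≤ 4 * θ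
    · refine ⟨1, 1, by rw [dl_one]; exact he0.le, by rw [dl_one]; exact he0.le, ?_⟩
      have := hd_le_one g (1 * cj x 1)
      linarith
    · push Not at h4
      have h5 : ⨆ c, Psi3 x g c ≤ 2 * θ := by
        apply ciSup_le; intro c
        unfold Psi3
        by_cases hc : dl x c ≤ e0
        · obtain ⟨h6, h7⟩ := hθ c hc
          have h8 := dl_nonneg x c
          have h9 : 0 ≤ cK4 * dl x c := mul_nonneg (by unfold cK4; norm_num) h8
          linarith
        · push Not at hc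
          have h6 := hd_le_one (g * c) (c * g)
          have h7 := hd_le_one (g * cj x c) (cj x c * g)
          have h8 : 2 ≤ cK4 * dl x c := by
            unfold cK4; unfold e0 at hc; linarith
          linarith
      have h6 : ⨅ a, ⨅ b, Psi2 x g a b < 4 * θ + e0 := by
        have := hP2 g
        linarith
      obtain ⟨a, ha⟩ := exists_lt_of_ciInf_lt h6
      obtain ⟨b, hb⟩ := exists_lt_of_ciInf_lt ha
      unfold Psi2 at hb
      have h7 := hd_nonneg g (a * cj x b)
      have h8 := dl_nonneg x a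
      have h9 := dl_nonneg x b
      have h10 : cM * (dl x a + dl x b) < 2 := by
        have : e0 < 1 := by unfold e0; norm_num
        linarith
      have h11 : dl x a + dl x b ≤ e0 := by
        unfold cM at h10; unfold e0; linarith
      have h12 : 0 ≤ cM * (dl x a + dl x b) := mul_nonneg (by unfold cM; norm_num) (by linarith)
      exact ⟨a, b, by linarith, by linarith, by linarith⟩
  set E : Set (Perm α) := {e | ∃ a b, dl x a ≤ e0 ∧ dl x b ≤ e0 ∧ e = a * cj x b} with hE
  -- commutation with elements of `E`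
  have cE1 : ∀ a b c, dl x a ≤ e0 → dl x b ≤ e0 → dl x c ≤ e0 →
      hd (a * cj x b * c) (c * (a * cj x b)) ≤ 2 * ε1 := by
    intro a b c ha hb hc
    have h1 := comm_mul_le a (cj x b) c
    have h3 := hD1 a c ha hc
    have h4 := hD3 c b hc hb
    have h5 := hd_comm (cj x b * c) (c * cj x b)
    linarith
  have cE2 : ∀ a b c, dl x a ≤ e0 → dl x b ≤ e0 → dl x c ≤ e0 →
      hd (a * cj x b * cj x c) (cj x c * (a * cj x b)) ≤ 2 * ε1 := by
    intro a b c ha hb hc
    have h1 := comm_mul_le a (cj x b) (cj x c)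
    have h3 := hD3 a c ha hc
    have h4 : hd (cj x b * cj x c) (cj x c * cj x b) = hd (b * c) (c * b) := by
      rw [← cj_mul, ← cj_mul, hd_cj]
    have h5 := hD1 b c hb hc
    linarith
  have E0 : (1 : Perm α) ∈ E := ⟨1, 1, by rw [dl_one]; exact he0.le, by rw [dl_one]; exact he0.le, by simp [cj_one]⟩
  have hεε : 17 * ε1 ≤ 1/100000000 := by rw [hε1]; unfold e0; norm_num
  have hε10 : 0 ≤ ε1 := by positivity
  have he01 : e0 ≤ ε1 := by rw [hε1]; linarith
  apply size_near_pow h2 E (ε := 17 * ε1) (by positivity) hεε E0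
  · -- E1
    rintro e ⟨a, b, ha, hb, rfl⟩ e' ⟨a', b', ha', hb', rfl⟩
    obtain ⟨a'', b'', ha'', hb'', h⟩ := hA (a * cj x b * (a' * cj x b')) (4 * ε1) (by
      intro c hc
      constructor
      · have h1 := comm_mul_le (a * cj x b) (a' * cj x b') c
        have h3 := cE1 a b c ha hb hc
        have h4 := cE1 a' b' c ha' hb' hc
        linarith
      · have h1 := comm_mul_le (a * cj x b) (a' * cj x b') (cj x c)
        have h3 := cE2 a b c ha hb hc
        have h4 := cE2 a' b' c ha' hb' hc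
        linarith)
    exact ⟨a'' * cj x b'', ⟨a'', b'', ha'', hb'', rfl⟩, by linarith⟩
  · -- E2
    rintro e ⟨a, b, ha, hb, rfl⟩
    have h1 : hd (a * cj x b * (a * cj x b)) (a * a * (cj x b * cj x b)) = hd (cj x b * a) (a * cj x b) := by
      have e1 : a * cj x b * (a * cj x b) = a * (cj x b * a) * cj x b := by group
      have e2 : a * a * (cj x b * cj x b) = a * (a * cj x b) * cj x b := by group
      rw [e1, e2, hd_mul_right, hd_mul_left]
    have h3 := hd_mul_le (a * a) (cj x b * cj x b) 1 1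
    rw [mul_one] at h3
    have h4 : hd (cj x b * cj x b) 1 = hd (b * b) 1 := by
      rw [← cj_mul]
      have := hd_cj x (b * b) 1
      rw [cj_one] at this; exact this
    have h5 := hD2 a ha
    have h6 := hD2 b hb
    have h7 := hD3 a b ha hb
    have h8 := hd_comm (cj x b * a) (a * cj x b)
    have h9 := hd_triangle (a * cj x b * (a * cj x b)) (a * a * (cj x b * cj x b)) 1
    linarith
  · -- E3
    rintro e ⟨a, b, ha, hb, rfl⟩ e' ⟨a', b', ha', hb', rfl⟩
    have h1 := comm_mul_le' a' (cj x b') (a * cj x b)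
    have h3 := cE1 a b a' ha hb ha'
    have h4 := cE2 a b b' ha hb hb'
    linarith
  · -- E4
    rintro e ⟨a, b, ha, hb, rfl⟩
    have h1 := hD4 a b ha hb
    set t := hd (a * cj x b) 1 with ht
    have h3 : 0 ≤ t := hd_nonneg _ _
    have h4 : t ≤ 1 := hd_le_one _ _
    by_cases h5 : t ≤ 1/2
    · left; nlinarith
    · right; push Not at h5; nlinarith
  · -- E5
    intro g θ hg
    obtain ⟨a, b, ha, hb, h⟩ := hA g θ (by
      intro c hc
      constructor
      · exact hg c ⟨c, 1, hc, by rw [dl_one]; exact he0.le, by simp [cj_one]⟩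
      · exact hg (cj x c) ⟨1, c, by rw [dl_one]; exact he0.le, hc, by simp⟩)
    exact ⟨a * cj x b, ⟨a, b, ha, hb, rfl⟩, by linarith⟩

/-- the exact form of the axioms -/
def Exact (x : Fin 6 → Perm α) : Prop :=
  (∀ a b, Psi1 x a b ≤ 0) ∧ (∀ g, ∃ a b c, Psi2 x g a b ≤ 2 * Psi3 x g c)

lemma Exact.body_le {x : Fin 6 → Perm α} (h : Exact x) : body x ≤ 0 := by
  classical
  unfold body
  have h1 : ⨆ a, ⨆ b, Psi1 x a b ≤ 0 := ciSup_le (fun a => ciSup_le (fun b => h.1 a b))
  have h2 : ⨆ g, ((⨅ a, ⨅ b, Psi2 x g a b) - 2 * ⨆ c, Psi3 x g c) ≤ 0 := by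
    apply ciSup_le; intro g
    obtain ⟨a, b, c, hc⟩ := h.2 g
    have h3 := inf2_le (Psi2 x g) a b
    have h4 := le_ciSup (bA (Psi3 x g)) c
    linarith
  linarith

end Body

section Transport

variable {α β : Type} [Fintype α] [Fintype β]

lemma hd_permCongr (e : α ≃ β) (a b : Perm α) :
    hd (e.permCongrHom a) (e.permCongrHom b) = hd a b := by
  unfold hd
  rw [← pr_equiv e]
  apply pr_congr
  intro x
  simp

lemma Exact.transport (e : α ≃ β) {x : Fin 6 → Perm α} (h : Exact x) :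
    Exact (fun i => e.permCongrHom (x i)) := by
  have hdl : ∀ a, dl (fun i => e.permCongrHom (x i)) (e.permCongrHom a) = dl x a := by
    intro a
    unfold dl
    simp only [← map_mul, hd_permCongr]
  have hcj : ∀ a, cj (fun i => e.permCongrHom (x i)) (e.permCongrHom a) = e.permCongrHom (cj x a) := by
    intro a
    unfold cj
    simp only [← map_mul, ← map_inv]
  constructor
  · intro a b
    obtain ⟨a, rfl⟩ := e.permCongrHom.surjective a
    obtain ⟨b, rfl⟩ := e.permCongrHom.surjective b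
    have := h.1 a b
    unfold Psi1 at *
    rw [hdl, hdl, hcj]
    simp only [← map_mul, hd_permCongr]
    have h2 : ∀ c, hd (e.permCongrHom c) 1 = hd c 1 := by
      intro c
      rw [← hd_permCongr e c 1, map_one]
    simp only [h2]
    exact this
  · intro g
    obtain ⟨g, rfl⟩ := e.permCongrHom.surjective g
    obtain ⟨a, b, c, hc⟩ := h.2 g
    refine ⟨e.permCongrHom a, e.permCongrHom b, e.permCongrHom c, ?_⟩
    unfold Psi2 Psi3 at *
    rw [hdl, hdl, hdl, hcj, hcj]
    simp only [← map_mul, hd_permCongr]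
    exact hc

end Transport

end Pool.Agent.H763sn
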