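import Pool.Agent.H763_sn.Prob

/-!
Fourier analysis over a finite group of exponent two for the graph of a map `f : V → V`.
-/

set_option autoImplicit false
set_option linter.unusedSectionVars false

namespace Pool.Agent.H763sn

open Equiv

/-- the nontrivial character of `ZMod 2` -/
noncomputable def sgn (z : ZMod 2) : ℝ := if z = 0 then 1 else -1

lemma zmod2_cases (a : ZMod 2) : a = 0 ∨ a = 1 := by
  fin_cases a
  · left; rfl
  · right; rfl

lemma sgn_zero : sgn 0 = 1 := by simp [sgn]
lemma sgn_one : sgn 1 = -1 := by simp [sgn]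

lemma sgn_add (a b : ZMod 2) : sgn (a + b) = sgn a * sgn b := by
  rcases zmod2_cases a with rfl | rfl <;> rcases zmod2_cases b with rfl | rfl
  · simp [sgn_zero]
  · simp [sgn_zero]
  · simp [sgn_zero]
  · have : (1 : ZMod 2) + 1 = 0 := by decide
    rw [this, sgn_zero, sgn_one]; norm_num

lemma sgn_sq (a : ZMod 2) : sgn a * sgn a = 1 := by
  rcases zmod2_cases a with rfl | rfl <;> simp [sgn]

section F

variable {V : Type} [AddCommGroup V] [Fintype V] (B : V → V → ZMod 2)

structure IsPair : Prop where
  add_left : ∀ k k' x, B (k + k') x = B k x + B k' x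
  add_right : ∀ k x x', B k (x + x') = B k x + B k x'
  nondeg : ∀ x, x ≠ 0 → ∃ k, B k x ≠ 0
  two : ∀ x : V, x + x = 0

variable {B} (hB : IsPair B)
include hB

lemma IsPair.zero_right (k : V) : B k 0 = 0 := by
  have := hB.add_right k 0 0
  simpa using this

lemma IsPair.zero_left (k : V) : B 0 k = 0 := by
  have := hB.add_left 0 0 k
  simpa using this

open Classical in
lemma ortho (z : V) : ∑ k, sgn (B k z) = if z = 0 then (Fintype.card V : ℝ) else 0 := by
  by_cases hz : z = 0
  · subst hz
    simp [hB.zero_right, sgn_zero]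
  · simp only [hz, if_false]
    obtain ⟨k0, hk0⟩ := hB.nondeg z hz
    have hk1 : B k0 z = 1 := by
      rcases zmod2_cases (B k0 z) with h | h
      · exact absurd h hk0
      · exact h
    have h1 : ∑ k, sgn (B k z) = ∑ k, sgn (B (k + k0) z) :=
      (Fintype.sum_equiv (Equiv.addRight k0) _ _ (fun k => rfl)).symm
    have h2 : ∑ k, sgn (B (k + k0) z) = - ∑ k, sgn (B k z) := by
      rw [← Finset.sum_neg_distrib]
      apply Finset.sum_congr rfl
      intro k _
      rw [hB.add_left, sgn_add, hk1, sgn_one]; ring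
    linarith

lemma parseval (g : V → ℝ) : ∑ k, (Ex (fun x => sgn (B k x) * g x)) ^ 2 = Ex (fun x => (g x) ^ 2) := by
  classical
  have hN : (Fintype.card V : ℝ) ≠ 0 := by
    have : Nonempty V := ⟨0⟩
    exact_mod_cast Fintype.card_ne_zero
  unfold Ex
  have h1 : ∀ k, (∑ x, sgn (B k x) * g x) ^ 2 = ∑ x, ∑ x', g x * g x' * sgn (B k (x + x')) := by
    intro k
    rw [pow_two, Finset.sum_mul_sum]
    apply Finset.sum_congr rfl; intro x _
    apply Finset.sum_congr rfl; intro x' _
    rw [hB.add_right, sgn_add]; ring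
  have h2 : ∑ k, (∑ x, sgn (B k x) * g x) ^ 2 = (Fintype.card V : ℝ) * ∑ x, (g x) ^ 2 := by
    simp_rw [h1]
    rw [Finset.sum_comm]
    rw [Finset.mul_sum]
    apply Finset.sum_congr rfl; intro x _
    rw [Finset.sum_comm]
    have h3 : ∀ x', ∑ k, g x * g x' * sgn (B k (x + x')) = if x' = x then (Fintype.card V : ℝ) * g x ^ 2 else 0 := by
      intro x'
      rw [← Finset.mul_sum, ortho hB]
      have h4 : x + x' = 0 ↔ x' = x := by
        constructor
        · intro h
          have := hB.two x
          have h5 : x + x' = x + x := by rw [h, this]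
          exact add_left_cancel h5
        · rintro rfl; exact hB.two _
      by_cases h : x' = x
      · subst h
        simp [hB.two]
        ring
      · simp [h4, h]
    simp_rw [h3]
    simp
  simp_rw [div_pow]
  rw [← Finset.sum_div, h2]
  field_simp

/-- Fourier coefficients of the graph of `f` -/
noncomputable def fh (B : V → V → ZMod 2) (f : V → V) (k y : V) : ℝ :=
  Ex (fun x => sgn (B k x) * (Set.indicator {z | f z = y} (fun _ => (1:ℝ)) x))

noncomputable def mu (B : V → V → ZMod 2) (f : V → V) (k : V) : ℝ := ∑ y, (fh B f k y) ^ 2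

open Classical in
noncomputable def nu (B : V → V → ZMod 2) (f : V → V) (X : V → Prop) : ℝ :=
  ∑ k, if X k then mu B f k else 0

omit hB in
lemma mu_nonneg (f : V → V) (k : V) : 0 ≤ mu B f k := Finset.sum_nonneg (fun _ _ => sq_nonneg _)

omit hB in
lemma nu_nonneg (f : V → V) (X : V → Prop) : 0 ≤ nu B f X := by
  apply Finset.sum_nonneg; intro k _; split
  · exact mu_nonneg f k
  · exact le_refl _

omit hB in
lemma nu_mono (f : V → V) {X Z : V → Prop} (h : ∀ k, X k → Z k) : nu B f X ≤ nu B f Z := by
  unfold nu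
  apply Finset.sum_le_sum; intro k _
  by_cases hX : X k
  · simp [hX, h k hX]
  · simp only [hX, if_false]; split
    · exact mu_nonneg f k
    · exact le_refl _

omit hB in
lemma nu_or_le (f : V → V) (X Z : V → Prop) : nu B f (fun k => X k ∨ Z k) ≤ nu B f X + nu B f Z := by
  unfold nu
  rw [← Finset.sum_add_distrib]
  apply Finset.sum_le_sum; intro k _
  have := mu_nonneg (B := B) f k
  by_cases hX : X k <;> by_cases hZ : Z k <;> simp [hX, hZ, this]

omit hB in
lemma nu_disj (f : V → V) (X Z : V → Prop) (h : ∀ k, X k → ¬ Z k) :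
    nu B f X + nu B f Z ≤ nu B f (fun k => X k ∨ Z k) := by
  unfold nu
  rw [← Finset.sum_add_distrib]
  apply Finset.sum_le_sum; intro k _
  by_cases hX : X k
  · simp [hX, h k hX]
  · by_cases hZ : Z k <;> simp [hX, hZ]

lemma Dsum (f h : V → V) :
    ∑ k, ∑ y, (fh B f k y - fh B h k y) ^ 2 = 2 * pr (fun x => f x ≠ h x) := by
  classical
  rw [Finset.sum_comm]
  have h1 : ∀ y, ∑ k, (fh B f k y - fh B h k y) ^ 2 =
      Ex (fun x => (Set.indicator {z | f z = y} (fun _ => (1:ℝ)) x - Set.indicator {z | h z = y} (fun _ => (1:ℝ)) x) ^ 2) := by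
    intro y
    rw [← parseval hB]
    apply Finset.sum_congr rfl; intro k _
    congr 1
    unfold fh
    rw [sub_eq_add_neg, ← neg_one_mul, ← Ex_mul_left, ← Ex_add]
    congr 1
    funext x; ring
  simp_rw [h1]
  have h2 : ∑ y, Ex (fun x => (Set.indicator {z | f z = y} (fun _ => (1:ℝ)) x - Set.indicator {z | h z = y} (fun _ => (1:ℝ)) x) ^ 2)
      = Ex (fun x => ∑ y, (Set.indicator {z | f z = y} (fun _ => (1:ℝ)) x - Set.indicator {z | h z = y} (fun _ => (1:ℝ)) x) ^ 2) := by
    unfold Ex
    rw [← Finset.sum_div, Finset.sum_comm]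
  rw [h2]
  unfold pr
  rw [← Ex_mul_left]
  congr 1
  funext x
  by_cases hx : f x = h x
  · simp only [hx, ne_eq, not_true_eq_false, if_false, mul_zero]
    apply Finset.sum_eq_zero
    intro y _
    simp [Set.indicator, hx]
  · simp only [ne_eq, hx, not_false_eq_true, if_true, mul_one]
    have h3 : ∀ y, (Set.indicator {z | f z = y} (fun _ => (1:ℝ)) x - Set.indicator {z | h z = y} (fun _ => (1:ℝ)) x) ^ 2
        = (if f x = y then 1 else 0) + (if h x = y then 1 else 0) := by
      intro y
      by_cases h4 : f x = y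
      · have h5 : h x ≠ y := fun h6 => hx (h4.trans h6.symm)
        simp [Set.indicator, h4, h5]
      · by_cases h5 : h x = y
        · simp [Set.indicator, h4, h5]
        · simp [Set.indicator, h4, h5]
    simp_rw [h3]
    rw [Finset.sum_add_distrib]
    simp
    norm_num

lemma mu_sum (f : V → V) : ∑ k, mu B f k = 1 := by
  classical
  unfold mu
  rw [Finset.sum_comm]
  have h1 : ∀ y, ∑ k, (fh B f k y) ^ 2 = Ex (fun x => if f x = y then (1:ℝ) else 0) := by
    intro y
    unfold fh
    rw [parseval hB]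
    congr 1
    funext x
    by_cases h : f x = y <;> simp [Set.indicator, h]
  simp_rw [h1]
  have h2 : ∑ y, Ex (fun x => if f x = y then (1:ℝ) else 0) = Ex (fun x => ∑ y, if f x = y then (1:ℝ) else 0) := by
    unfold Ex
    rw [← Finset.sum_div, Finset.sum_comm]
  rw [h2]
  simp only [Finset.sum_ite_eq, Finset.mem_univ, if_true]
  have : Nonempty V := ⟨0⟩
  exact Ex_const 1

lemma mu_le (f h : V → V) (k : V) :
    mu B f k ≤ 5/4 * mu B h k + 5 * ∑ y, (fh B f k y - fh B h k y) ^ 2 := by
  unfold mu
  rw [Finset.mul_sum, Finset.mul_sum, ← Finset.sum_add_distrib]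
  apply Finset.sum_le_sum
  intro y _
  nlinarith [sq_nonneg (fh B f k y - fh B h k y), sq_nonneg (fh B h k y - 4 * (fh B f k y - fh B h k y))]

lemma nu_move (f : V → V) (L L' : V → V) (hL : ∀ x, L (L x) = x) (hL' : ∀ x, L' (L' x) = x)
    (hadj : ∀ k x, B k (L x) = B (L' k) x) (X Z : V → Prop) (hXZ : ∀ k, X k → Z (L' k)) :
    nu B f X ≤ 5/4 * nu B f Z + 10 * pr (fun x => f (L x) ≠ L (f x)) := by
  classical
  set h : V → V := fun x => L (f (L x)) with hh
  let eL : V ≃ V := ⟨L, L, hL, hL⟩
  let eL' : V ≃ V := ⟨L', L', hL', hL'⟩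
  have h1 : ∀ k y, fh B h k y = fh B f (L' k) (L y) := by
    intro k y
    unfold fh
    have := Ex_equiv eL (fun x => sgn (B k x) * (Set.indicator {z | h z = y} (fun _ => (1:ℝ)) x))
    rw [← this]
    congr 1
    funext x
    have h2 : B k (eL x) = B (L' k) x := hadj k x
    rw [h2]
    congr 1
    have h3 : h (eL x) = y ↔ f x = L y := by
      have : eL x = L x := rfl
      rw [this]
      simp only [hh, hL]
      constructor
      · intro h4; rw [← h4, hL]
      · intro h4; rw [h4, hL]
    simp only [Set.indicator, Set.mem_ofPred_eq, h3]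
  have h2 : ∀ k, mu B h k = mu B f (L' k) := by
    intro k
    unfold mu
    simp_rw [h1]
    exact Fintype.sum_equiv eL (fun y => fh B f (L' k) (L y) ^ 2) (fun y => fh B f (L' k) y ^ 2) (fun y => rfl)
  have h3 : pr (fun x => f x ≠ h x) = pr (fun x => f (L x) ≠ L (f x)) := by
    apply pr_congr
    intro x
    simp only [hh, ne_eq]
    rw [not_iff_not]
    constructor
    · intro h4; rw [h4, hL]
    · intro h4; rw [h4, hL]
  have h4 := Dsum hB f h
  have h5 : nu B f X ≤ ∑ k, ((if Z (L' k) then 5/4 * mu B f (L' k) else 0) + 5 * ∑ y, (fh B f k y - fh B h k y) ^ 2) := by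
    unfold nu
    apply Finset.sum_le_sum
    intro k _
    have h6 := mu_le hB f h k
    have h7 : 0 ≤ ∑ y, (fh B f k y - fh B h k y) ^ 2 := Finset.sum_nonneg (fun _ _ => sq_nonneg _)
    by_cases hX : X k
    · simp only [hX, if_true, hXZ k hX]
      rw [← h2]; exact h6
    · simp only [hX, if_false]
      have h8 : 0 ≤ (if Z (L' k) then 5/4 * mu B f (L' k) else 0) := by
        split
        · have := mu_nonneg (B := B) f (L' k); linarith
        · exact le_refl _
      linarith
  rw [Finset.sum_add_distrib, ← Finset.mul_sum, h4, h3] at h5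
  have h6 : ∑ k, (if Z (L' k) then 5/4 * mu B f (L' k) else 0) = 5/4 * nu B f Z := by
    unfold nu
    rw [Finset.mul_sum]
    have := Fintype.sum_equiv eL' (fun k => (if Z (L' k) then 5/4 * mu B f (L' k) else 0))
      (fun k => (if Z k then 5/4 * mu B f k else 0)) (fun k => rfl)
    rw [this]
    apply Finset.sum_congr rfl; intro k _
    split <;> simp
  rw [h6] at h5
  linarith

lemma nu_trans (f : V → V) (v : V) :
    nu B f (fun k => B k v ≠ 0) ≤ pr (fun x => f (x + v) ≠ f x) := by
  classical
  set h : V → V := fun x => f (x + v) with hh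
  have h1 : ∀ k y, fh B h k y = sgn (B k v) * fh B f k y := by
    intro k y
    unfold fh
    rw [← Ex_mul_left]
    have := Ex_equiv (Equiv.addRight v) (fun x => sgn (B k x) * (Set.indicator {z | h z = y} (fun _ => (1:ℝ)) x))
    rw [← this]
    congr 1
    funext x
    simp only [Equiv.coe_addRight, hB.add_right, sgn_add]
    have h3 : h (x + v) = f x := by
      simp only [hh, add_assoc, hB.two, add_zero]
    simp only [Set.indicator, Set.mem_ofPred_eq, h3]
    ring
  have h4 := Dsum hB f h
  have h5 : 4 * nu B f (fun k => B k v ≠ 0) ≤ ∑ k, ∑ y, (fh B f k y - fh B h k y) ^ 2 := by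
    unfold nu
    rw [Finset.mul_sum]
    apply Finset.sum_le_sum
    intro k _
    by_cases hk : B k v = 0
    · simp only [hk, ne_eq, not_true_eq_false, if_false, mul_zero]
      exact Finset.sum_nonneg (fun _ _ => sq_nonneg _)
    · have hk1 : B k v = 1 := by
        rcases zmod2_cases (B k v) with h | h
        · exact absurd h hk
        · exact h
      simp only [hk, ne_eq, not_false_eq_true, if_true]
      unfold mu
      rw [Finset.mul_sum]
      apply Finset.sum_le_sum
      intro y _
      rw [h1, hk1, sgn_one]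
      nlinarith
  have h6 : pr (fun x => f x ≠ h x) = pr (fun x => f (x + v) ≠ f x) := pr_congr (fun x => ne_comm)
  rw [h4, h6] at h5
  have := pr_nonneg (fun x => f (x + v) ≠ f x)
  linarith

lemma exists_const (f : V → V) : ∃ y, mu B f 0 ≤ pr (fun x => f x = y) := by
  classical
  have : Nonempty V := ⟨0⟩
  obtain ⟨y, hy⟩ := Finite.exists_max (fun y => pr (fun x => f x = y))
  refine ⟨y, ?_⟩
  have h1 : ∀ z, fh B f 0 z = pr (fun x => f x = z) := by
    intro z
    unfold fh pr
    congr 1
    funext x
    rw [hB.zero_left, sgn_zero]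
    by_cases h : f x = z <;> simp [Set.indicator, h]
  have h2 : ∑ z, pr (fun x => f x = z) = 1 := by
    unfold pr
    have h2 : ∑ y, Ex (fun x => if f x = y then (1:ℝ) else 0) = Ex (fun x => ∑ y, if f x = y then (1:ℝ) else 0) := by
      unfold Ex
      rw [← Finset.sum_div, Finset.sum_comm]
    rw [h2]
    simp only [Finset.sum_ite_eq, Finset.mem_univ, if_true]
    exact Ex_const 1
  unfold mu
  simp_rw [h1]
  calc ∑ z, pr (fun x => f x = z) ^ 2 ≤ ∑ z, pr (fun x => f x = y) * pr (fun x => f x = z) := by
        apply Finset.sum_le_sum; intro z _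
        rw [pow_two]
        exact mul_le_mul_of_nonneg_right (hy z) (pr_nonneg _)
    _ = pr (fun x => f x = y) := by rw [← Finset.mul_sum, h2, mul_one]

lemma near_const (f : V → V) : ∃ y, 1 - nu B f (fun k => k ≠ 0) ≤ pr (fun x => f x = y) := by
  classical
  obtain ⟨y, hy⟩ := exists_const hB f
  refine ⟨y, ?_⟩
  have h1 := mu_sum hB f
  have h2 : nu B f (fun k => k ≠ 0) + mu B f 0 = 1 := by
    rw [← h1]
    unfold nu
    rw [← Finset.sum_erase_add _ _ (Finset.mem_univ (0 : V)), ← Finset.sum_erase_add Finset.univ (mu B f) (Finset.mem_univ (0 : V))]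
    simp only [ne_eq, not_true_eq_false, if_false, add_zero]
    congr 1
    apply Finset.sum_congr rfl
    intro k hk
    rw [Finset.mem_erase] at hk
    simp [hk.1]
  linarith

end F

end Pool.Agent.H763sn
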