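import Pool.Agent.H763_sn.Body

/-!
The model satisfies the axioms exactly.
-/

set_option autoImplicit false
set_option linter.unusedSectionVars false

namespace Pool.Agent.H763sn

open Equiv

section ME

variable {N : ℕ}

def S1 : Perm (VV N) := ⟨L1, L1, L1_inv, L1_inv⟩
def S2 : Perm (VV N) := ⟨L2, L2, L2_inv, L2_inv⟩
def S3 : Perm (VV N) := ⟨L3, L3, L3_inv, L3_inv⟩
def S4 : Perm (VV N) := ⟨L4, L4, L4_inv, L4_inv⟩
def tau (v : VV N) : Perm (VV N) := Equiv.addRight v
def W : Perm (VV N) := Equiv.prodComm _ _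

def sx : Fin 6 → Perm (VV N) := ![S1, S2, S3, S4, tau v5, W]

def tr (p : Rg N × Rg N) : Perm (VV N) := tau (p, 0)

lemma tau_apply (v x : VV N) : tau v x = x + v := rfl

lemma vv_two (x : VV N) : x + x = 0 := BB_pair.two x

lemma tau_mul (u v : VV N) : tau u * tau v = tau (v + u) := by
  ext1 x; simp [tau_apply, add_assoc]

lemma comm_tau (u v : VV N) : tau u * tau v = tau v * tau u := by
  rw [tau_mul, tau_mul, add_comm]

lemma comm_lin (L : VV N → VV N) (S : Perm (VV N)) (hS : ∀ x, S x = L x)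
    (hadd : ∀ x y, L (x + y) = L x + L y) (v : VV N) (hv : L v = v) : tau v * S = S * tau v := by
  ext1 x
  simp [tau_apply, hS, hadd, hv]

lemma L1_fix (p : Rg N × Rg N) : L1 ((p, 0) : VV N) = (p, 0) := by
  simp [L1]
lemma Tm_zero : Tm (0 : Rg N) = 0 := by
  funext i
  refine Fin.cases ?_ (fun j => ?_) i
  · simp [Tm]
  · simp [Tm]
lemma L2_fix (p : Rg N × Rg N) : L2 ((p, 0) : VV N) = (p, 0) := by
  simp [L2, Tm_zero]
lemma L3_fix (p : Rg N × Rg N) : L3 ((p, 0) : VV N) = (p, 0) := by
  simp [L3]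
lemma L4_fix (p : Rg N × Rg N) : L4 ((p, 0) : VV N) = (p, 0) := by
  simp [L4]

lemma dl_tr (p : Rg N × Rg N) : dl sx (tr p) = 0 := by
  unfold dl
  have h0 : tr p * sx 0 = sx 0 * tr p := comm_lin L1 S1 (fun _ => rfl) L1_add _ (L1_fix p)
  have h1 : tr p * sx 1 = sx 1 * tr p := comm_lin L2 S2 (fun _ => rfl) L2_add _ (L2_fix p)
  have h2 : tr p * sx 2 = sx 2 * tr p := comm_lin L3 S3 (fun _ => rfl) L3_add _ (L3_fix p)
  have h3 : tr p * sx 3 = sx 3 * tr p := comm_lin L4 S4 (fun _ => rfl) L4_add _ (L4_fix p)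
  have h4 : tr p * sx 4 = sx 4 * tr p := comm_tau _ _
  rw [h0, h1, h2, h3, h4]
  simp [hd_self]

lemma cj_tr (p : Rg N × Rg N) : cj sx (tr p) = tau (0, p) := by
  unfold cj
  ext1 x
  have h5 : sx (N := N) 5 = W := rfl
  rw [h5]
  simp only [Perm.coe_mul, Function.comp_apply]
  have h6 : (W⁻¹ : Perm (VV N)) x = (x.2, x.1) := rfl
  rw [h6]
  simp only [tr, tau_apply, W]
  ext i <;> simp

lemma tr_mul_cj (y : VV N) : tr y.1 * cj sx (tr y.2) = tau y := by
  rw [cj_tr]
  unfold tr
  rw [tau_mul]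
  congr 1
  simp

lemma hd_tau (v : VV N) : hd (tau v) 1 = 0 ∨ hd (tau v) 1 = 1 := by
  by_cases h : v = 0
  · left
    subst h
    apply pr_eq_zero
    intro x
    simp [tau_apply]
  · right
    apply pr_eq_one
    intro x
    simp [tau_apply, h]

lemma pr_lin (a : Perm (VV N)) (L : VV N → VV N) (S : Perm (VV N)) (hS : ∀ x, S x = L x)
    (hadd : ∀ x y, L (x + y) = L x + L y) :
    pr (fun x => (a (L x) + L x) ≠ L (a x + x)) = hd (a * S) (S * a) := by
  apply pr_congr
  intro x
  simp only [Perm.coe_mul, Function.comp_apply, hS, hadd, ne_eq, add_left_inj]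

lemma add_eq_iff (a x y v : VV N) : a + (x + v) = y + x ↔ a = y + v := by
  constructor
  · intro h
    have h1 : a + (x + v) + (x + v) = y + x + (x + v) := by rw [h]
    rw [add_assoc a, vv_two, add_zero, add_assoc y, ← add_assoc x, vv_two, zero_add] at h1
    exact h1
  · rintro rfl
    have h1 : y + v + (x + v) = y + x + (v + v) := by abel
    rw [h1, vv_two, add_zero]

lemma pr_trans (a : Perm (VV N)) (v : VV N) :
    pr (fun x => (a (x + v) + (x + v)) ≠ (a x + x)) = hd (a * tau v) (tau v * a) := by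
  apply pr_congr
  intro x
  simp only [Perm.coe_mul, Function.comp_apply, tau_apply, ne_eq, add_eq_iff]

lemma hd_tau_eq (a : Perm (VV N)) (v : VV N) : pr (fun x => a x + x ≠ v) = hd a (tau v) := by
  apply pr_congr
  intro x
  rw [not_iff_not]
  change a x + x = v ↔ a x = x + v
  constructor
  · rintro rfl
    have h1 : x + (a x + x) = a x + (x + x) := by abel
    rw [h1, vv_two, add_zero]
  · intro h
    rw [h]
    have h1 : x + v + x = v + (x + x) := by abel
    rw [h1, vv_two, add_zero]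

lemma near_tr (a : Perm (VV N)) : ∃ p, hd a (tr p) ≤ 2001 * dl sx a := by
  have hD0 := dl_nonneg sx a
  by_cases hD : 2001 * dl sx a < 1
  · have n0 := hd_nonneg (a * sx 0) (sx 0 * a)
    have n1 := hd_nonneg (a * sx 1) (sx 1 * a)
    have n2 := hd_nonneg (a * sx 2) (sx 2 * a)
    have n3 := hd_nonneg (a * sx 3) (sx 3 * a)
    have n4 := hd_nonneg (a * sx 4) (sx 4 * a)
    have h1 : pr (fun x => (a (L1 x) + L1 x) ≠ L1 (a x + x)) ≤ dl sx a := by
      rw [pr_lin a L1 S1 (fun _ => rfl) L1_add]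
      have : hd (a * S1) (S1 * a) = hd (a * sx 0) (sx 0 * a) := rfl
      unfold dl; linarith
    have h2 : pr (fun x => (a (L2 x) + L2 x) ≠ L2 (a x + x)) ≤ dl sx a := by
      rw [pr_lin a L2 S2 (fun _ => rfl) L2_add]
      have : hd (a * S2) (S2 * a) = hd (a * sx 1) (sx 1 * a) := rfl
      unfold dl; linarith
    have h3 : pr (fun x => (a (L3 x) + L3 x) ≠ L3 (a x + x)) ≤ dl sx a := by
      rw [pr_lin a L3 S3 (fun _ => rfl) L3_add]
      have : hd (a * S3) (S3 * a) = hd (a * sx 2) (sx 2 * a) := rfl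
      unfold dl; linarith
    have h4 : pr (fun x => (a (L4 x) + L4 x) ≠ L4 (a x + x)) ≤ dl sx a := by
      rw [pr_lin a L4 S4 (fun _ => rfl) L4_add]
      have : hd (a * S4) (S4 * a) = hd (a * sx 3) (sx 3 * a) := rfl
      unfold dl; linarith
    have h5 : pr (fun x => (a (x + v5) + (x + v5)) ≠ (a x + x)) ≤ dl sx a := by
      rw [pr_trans]
      have : hd (a * tau v5) (tau v5 * a) = hd (a * sx 4) (sx 4 * a) := rfl
      unfold dl; linarith
    obtain ⟨p, hp⟩ := near_const_fix (fun x => a x + x) hD h1 h2 h3 h4 h5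
    refine ⟨p, ?_⟩
    have h6 : hd a (tr p) = pr (fun x => a x + x ≠ (p, 0)) := (hd_tau_eq a (p, 0)).symm
    rw [h6]
    linarith
  · push Not at hD
    exact ⟨0, (hd_le_one _ _).trans hD⟩

lemma exact_model : Exact (sx (N := N)) := by
  constructor
  · intro a b
    obtain ⟨p, hp⟩ := near_tr a
    obtain ⟨q, hq⟩ := near_tr b
    set da := hd a (tr p) with hda
    set db := hd b (tr q) with hdb
    have c1 := comm_near a b (tr p) (tr q)
    have c1' : hd (tr p * tr q) (tr q * tr p) = 0 := by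
      unfold tr; rw [comm_tau, hd_self]
    have c2 := hd_mul_le a a (tr p) (tr p)
    have c2' : tr p * tr p = 1 := by
      unfold tr
      rw [tau_mul, vv_two]
      ext1 x; simp [tau_apply]
    rw [c2'] at c2
    have c3 := comm_near a (cj sx b) (tr p) (cj sx (tr q))
    have c3' : hd (tr p * cj sx (tr q)) (cj sx (tr q) * tr p) = 0 := by
      rw [cj_tr]; unfold tr; rw [comm_tau, hd_self]
    rw [hd_cj] at c3
    have c4 := hd_mul_le a (cj sx b) (tr p) (cj sx (tr q))
    rw [hd_cj] at c4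
    have c5 : hd (a * cj sx b) 1 * (1 - hd (a * cj sx b) 1) ≤ da + db := by
      set t := hd (a * cj sx b) 1 with ht
      have h3 : 0 ≤ t := hd_nonneg _ _
      have h4 : t ≤ 1 := hd_le_one _ _
      have h5 := tr_mul_cj (p, q)
      simp only at h5
      rw [h5] at c4
      rcases hd_tau ((p, q) : VV N) with h6 | h6
      · have h7 := hd_triangle (a * cj sx b) (tau (p, q)) 1
        have h8 : t ≤ da + db := by linarith
        nlinarith
      · have h7 := hd_triangle (tau (p, q)) (a * cj sx b) 1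
        have h9 := hd_comm (tau (p, q)) (a * cj sx b)
        have h8 : 1 - t ≤ da + db := by linarith
        nlinarith
    have ha := dl_nonneg sx a
    have hb := dl_nonneg sx b
    have hda0 : 0 ≤ da := hd_nonneg _ _
    have hdb0 : 0 ≤ db := hd_nonneg _ _
    unfold Psi1 cK
    linarith
  · intro g
    have hfin : Finite (Rg N × Rg N) := inferInstance
    obtain ⟨p0, hp0⟩ := Finite.exists_max
      (fun p : Rg N × Rg N => hd (g * tr p) (tr p * g) + hd (g * tau (0, p)) (tau (0, p) * g))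
    set θ := hd (g * tr p0) (tr p0 * g) + hd (g * tau (0, p0)) (tau (0, p0) * g) with hθ
    have h1 : ∀ v : VV N, hd (g * tau v) (tau v * g) ≤ 2 * θ := by
      intro v
      have h2 := comm_mul_le' (tr v.1) (tau (0, v.2)) g
      have h3 : tr v.1 * tau (0, v.2) = tau v := by
        unfold tr; rw [tau_mul]; congr 1; simp
      rw [h3] at h2
      have h4 := hp0 v.1
      have h5 := hp0 v.2
      have h6 := hd_nonneg (g * tau (0, v.1)) (tau (0, v.1) * g)
      have h7 := hd_nonneg (g * tr v.2) (tr v.2 * g)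
      linarith
    obtain ⟨x, hx⟩ := Finite.exists_min (fun x : VV N => pr (fun z => g z + z ≠ g x + x))
    have h2 : Ex (fun x : VV N => pr (fun z => g z + z ≠ g x + x)) ≤ 2 * θ := by
      have h3 : Ex (fun x : VV N => pr (fun z => g z + z ≠ g x + x)) =
          Ex (fun x : VV N => pr (fun v => (g (x + v) + (x + v)) ≠ (g x + x))) := by
        congr 1
        funext x
        exact (pr_equiv (Equiv.addLeft x) (fun z => g z + z ≠ g x + x)).symm
      rw [h3, Ex_pr_comm]
      apply Ex_le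
      intro v
      rw [pr_trans]
      exact h1 v
    have h3 : pr (fun z => g z + z ≠ g x + x) ≤ 2 * θ := (le_Ex hx).trans h2
    set y := g x + x with hy
    refine ⟨tr y.1, tr y.2, tr p0, ?_⟩
    unfold Psi2 Psi3
    rw [dl_tr, dl_tr, dl_tr, tr_mul_cj, cj_tr, ← hd_tau_eq]
    linarith

end ME

end Pool.Agent.H763sn
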