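import Pool.Agent.H763_sn.Prob

/-!
Uniform near-actions of a finite group of exponent two which are near-transitive: the set acted
upon has nearly a power of two elements.
-/

set_option autoImplicit false
set_option linter.unusedSectionVars false

namespace Pool.Agent.H763sn

open Equiv

section NA

variable {Y α : Type} [Group Y] [Fintype Y] [Fintype α]

/-- defect of multiplicativity at `v`, `x` -/
noncomputable def bet (A : Y → Perm α) (v : Y) (x : α) : ℝ :=
  pr (fun u : Y => A u (A v x) ≠ A (u * v) x)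

def GG (A : Y → Perm α) (x : α) (v : Y) : Prop := bet A v x ≤ 1/10

def Good (A : Y → Perm α) (x : α) : Prop := Ex (fun v => bet A v x) ≤ 1/1000

noncomputable def pk (A : Y → Perm α) (x : α) (k : Y) : ℝ :=
  pr (fun u : Y => A (u * k) x ≠ A u x)

lemma bet_nonneg (A : Y → Perm α) (v : Y) (x : α) : 0 ≤ bet A v x := pr_nonneg _

lemma Ex_bet (A : Y → Perm α) {ε : ℝ} (hA : ∀ u v, hd (A u * A v) (A (u * v)) ≤ ε) (v : Y) :
    Ex (fun x => bet A v x) ≤ ε := by
  unfold bet
  rw [Ex_pr_comm]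
  exact Ex_le (fun u => hA u v)

lemma pr_not_GG_v (A : Y → Perm α) {ε : ℝ} (hA : ∀ u v, hd (A u * A v) (A (u * v)) ≤ ε) (v : Y) :
    pr (fun x => ¬ GG A x v) ≤ 10 * ε := by
  have h1 := markov (f := fun x => bet A v x) (fun x => bet_nonneg A v x) (t := 1/10) (by norm_num)
  have h2 := Ex_bet A hA v
  have h3 : pr (fun x => ¬ GG A x v) = pr (fun x => 1/10 < bet A v x) :=
    pr_congr (fun x => by unfold GG; exact not_le)
  rw [h3]
  refine h1.trans ?_
  rw [div_le_iff₀ (by norm_num)]; linarith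

lemma pr_not_Good (A : Y → Perm α) {ε : ℝ} (hA : ∀ u v, hd (A u * A v) (A (u * v)) ≤ ε) :
    pr (fun x => ¬ Good A x) ≤ 1000 * ε := by
  have h1 := markov (f := fun x => Ex (fun v => bet A v x))
    (fun x => Ex_nonneg (fun v => bet_nonneg A v x)) (t := 1/1000) (by norm_num)
  have h2 : Ex (fun x => Ex (fun v => bet A v x)) ≤ ε := by
    rw [Ex_comm]
    exact Ex_le (fun v => Ex_bet A hA v)
  have h3 : pr (fun x => ¬ Good A x) = pr (fun x => 1/1000 < Ex (fun v => bet A v x)) :=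
    pr_congr (fun x => by unfold Good; exact not_le)
  rw [h3]
  refine h1.trans ?_
  rw [div_le_iff₀ (by norm_num)]; linarith

lemma pr_not_GG {A : Y → Perm α} {x : α} (hx : Good A x) : pr (fun v => ¬ GG A x v) ≤ 1/100 := by
  have h1 := markov (f := fun v => bet A v x) (fun v => bet_nonneg A v x) (t := 1/10) (by norm_num)
  have h3 : pr (fun v => ¬ GG A x v) = pr (fun v => 1/10 < bet A v x) :=
    pr_congr (fun v => by unfold GG; exact not_le)
  rw [h3]
  refine h1.trans ?_
  unfold Good at hx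
  rw [div_le_iff₀ (by norm_num)]; linarith

lemma pr_not_GG_mul {A : Y → Perm α} {x : α} (hx : Good A x) (k : Y) :
    pr (fun v => ¬ GG A x (v * k)) ≤ 1/100 := by
  have := pr_equiv (Equiv.mulRight k) (fun v => ¬ GG A x v)
  simp only [Equiv.coe_mulRight] at this
  rw [this]; exact pr_not_GG hx

lemma exists_pair {A : Y → Perm α} {x : α} (hx : Good A x) (k : Y) :
    ∃ v, GG A x v ∧ GG A x (v * k) := by
  have h1 : pr (fun v => ¬ GG A x v ∨ ¬ GG A x (v * k)) < 1 := by
    have := pr_or_le (fun v => ¬ GG A x v) (fun v => ¬ GG A x (v * k))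
    have h2 := pr_not_GG hx
    have h3 := pr_not_GG_mul hx k
    linarith
  obtain ⟨v, hv⟩ := exists_of_pr_lt h1
  push Not at hv
  exact ⟨v, hv⟩

lemma pk_reindex (A : Y → Perm α) (x : α) (k v : Y) :
    pk A x k = pr (fun u : Y => A (u * v * k) x ≠ A (u * v) x) := by
  have := pr_equiv (Equiv.mulRight v) (fun u : Y => A (u * k) x ≠ A u x)
  simp only [Equiv.coe_mulRight] at this
  exact this.symm

lemma pk_le {A : Y → Perm α} {x : α} {v k : Y} (hv : GG A x v) (hvk : GG A x (v * k))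
    (h : A (v * k) x = A v x) : pk A x k ≤ 1/5 := by
  rw [pk_reindex A x k v]
  have h1 : pr (fun u : Y => A (u * v * k) x ≠ A (u * v) x) ≤ bet A (v * k) x + bet A v x := by
    apply pr_le_add
    intro u hu
    by_contra hc
    push Not at hc
    apply hu
    rw [mul_assoc, ← hc.1, ← hc.2, h]
  unfold GG at hv hvk
  linarith

lemma le_pk {A : Y → Perm α} {x : α} {v k : Y} (hv : GG A x v) (hvk : GG A x (v * k))
    (h : A (v * k) x ≠ A v x) : 4/5 ≤ pk A x k := by
  rw [pk_reindex A x k v]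
  have h0 := pr_not (fun u : Y => A (u * v * k) x ≠ A (u * v) x)
  have h1 : pr (fun u : Y => ¬ (A (u * v * k) x ≠ A (u * v) x)) ≤ bet A (v * k) x + bet A v x := by
    apply pr_le_add
    intro u hu
    by_contra hc
    push Not at hc hu
    apply h
    apply (A u).injective
    rw [hc.1, hc.2, ← mul_assoc, hu]
  unfold GG at hv hvk
  linarith

lemma pk_gap {A : Y → Perm α} {x : α} (hx : Good A x) (k : Y) : pk A x k ≤ 1/5 ∨ 4/5 ≤ pk A x k := by
  obtain ⟨v, hv, hvk⟩ := exists_pair hx k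
  by_cases h : A (v * k) x = A v x
  · exact Or.inl (pk_le hv hvk h)
  · exact Or.inr (le_pk hv hvk h)

/-- near-stabiliser -/
def Kx {A : Y → Perm α} {x : α} (hx : Good A x) : Subgroup Y where
  carrier := {k | pk A x k ≤ 1/5}
  one_mem' := by
    have : pk A x 1 = 0 := pr_eq_zero (by simp)
    simp only [Set.mem_ofPred_eq, this]; norm_num
  mul_mem' := by
    intro a b ha hb
    simp only [Set.mem_ofPred_eq] at *
    have h1 : pk A x (a * b) ≤ pk A x b + pk A x a := by
      rw [pk_reindex A x b a]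
      apply pr_le_add
      intro u hu
      by_contra hc
      push Not at hc
      apply hu
      rw [← mul_assoc, hc.1, hc.2]
    rcases pk_gap hx (a * b) with h | h
    · exact h
    · linarith
  inv_mem' := by
    intro a ha
    simp only [Set.mem_ofPred_eq] at *
    rw [pk_reindex A x a⁻¹ a]
    refine le_trans (le_of_eq ?_) ha
    apply pr_congr
    intro u
    rw [mul_inv_cancel_right]
    exact ne_comm

lemma mem_Kx {A : Y → Perm α} {x : α} (hx : Good A x) (k : Y) : k ∈ Kx hx ↔ pk A x k ≤ 1/5 := Iff.rfl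

lemma eq_iff_mem {A : Y → Perm α} {x : α} (hx : Good A x) {v v' : Y} (hv : GG A x v)
    (hv' : GG A x v') : A v x = A v' x ↔ v⁻¹ * v' ∈ Kx hx := by
  have h1 : v' = v * (v⁻¹ * v') := by group
  constructor
  · intro h
    rw [mem_Kx]
    apply pk_le hv (by rw [← h1]; exact hv')
    rw [← h1]; exact h.symm
  · intro h
    by_contra hne
    have := le_pk (k := v⁻¹ * v') hv (by rw [← h1]; exact hv') (by rw [← h1]; exact fun h => hne h.symm)
    rw [mem_Kx] at h
    linarith

/-- near-orbit -/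
def RR (A : Y → Perm α) (x : α) : Set α := {z | ∃ v, GG A x v ∧ A v x = z}

lemma ncard_image_eq {β γ δ : Type} [Finite β] (G : Set β) (f : β → γ) (g : β → δ)
    (h : ∀ v ∈ G, ∀ v' ∈ G, (f v = f v' ↔ g v = g v')) : (f '' G).ncard = (g '' G).ncard := by
  classical
  apply le_antisymm
  · rcases G.eq_empty_or_nonempty with h0 | ⟨v0, hv0⟩
    · subst h0; simp
    · have : f '' G ⊆ (fun d => if hd : ∃ v ∈ G, g v = d then f hd.choose else f v0) '' (g '' G) := by
        rintro _ ⟨v, hv, rfl⟩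
        refine ⟨g v, ⟨v, hv, rfl⟩, ?_⟩
        have hd : ∃ v' ∈ G, g v' = g v := ⟨v, hv, rfl⟩
        simp only [hd, dif_pos]
        exact (h _ hd.choose_spec.1 v hv).2 hd.choose_spec.2
      exact (Set.ncard_le_ncard this (Set.toFinite _)).trans (Set.ncard_image_le (Set.toFinite _))
  · rcases G.eq_empty_or_nonempty with h0 | ⟨v0, hv0⟩
    · subst h0; simp
    · have : g '' G ⊆ (fun d => if hd : ∃ v ∈ G, f v = d then g hd.choose else g v0) '' (f '' G) := by
        rintro _ ⟨v, hv, rfl⟩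
        refine ⟨f v, ⟨v, hv, rfl⟩, ?_⟩
        have hd : ∃ v' ∈ G, f v' = f v := ⟨v, hv, rfl⟩
        simp only [hd, dif_pos]
        exact (h _ hd.choose_spec.1 v hv).1 hd.choose_spec.2
      exact (Set.ncard_le_ncard this (Set.toFinite _)).trans (Set.ncard_image_le (Set.toFinite _))

lemma RR_ncard {A : Y → Perm α} {x : α} (hx : Good A x) :
    (RR A x).ncard = ((QuotientGroup.mk : Y → Y ⧸ Kx hx) '' {v | GG A x v}).ncard := by
  have h1 : RR A x = (fun v => A v x) '' {v | GG A x v} := by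
    ext z; simp [RR]
  rw [h1]
  apply ncard_image_eq
  intro v hv v' hv'
  rw [QuotientGroup.eq]
  exact eq_iff_mem hx hv hv'

lemma pr_eq_ncard {β : Type} [Fintype β] (p : β → Prop) :
    pr p = (({x | p x} : Set β).ncard : ℝ) / Fintype.card β := by
  classical
  rw [pr_eq_card, Set.ncard_eq_toFinset_card']
  congr 3
  ext x; simp

lemma RR_le_index {A : Y → Perm α} {x : α} (hx : Good A x) : (RR A x).ncard ≤ (Kx hx).index := by
  rw [RR_ncard hx]
  unfold Subgroup.index
  rw [← Set.ncard_univ]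
  exact Set.ncard_le_ncard (Set.subset_univ _) (Set.toFinite _)

lemma index_le_RR {A : Y → Perm α} {x : α} (hx : Good A x) :
    (99/100 : ℝ) * (Kx hx).index ≤ (RR A x).ncard := by
  rw [RR_ncard hx]
  set K := Kx hx with hK
  set Q : Set (Y ⧸ K) := (QuotientGroup.mk : Y → Y ⧸ K) '' {v | GG A x v} with hQ
  have h1 : Q.ncard + Qᶜ.ncard = K.index := by
    rw [Set.ncard_add_ncard_compl]; rfl
  have h2 : ((QuotientGroup.mk : Y → Y ⧸ K) ⁻¹' Qᶜ) ⊆ {v | ¬ GG A x v} := by
    intro v hv hG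
    exact hv ⟨v, hG, rfl⟩
  have h3 : Nat.card ((QuotientGroup.mk : Y → Y ⧸ K) ⁻¹' Qᶜ) = Nat.card K * Nat.card (Qᶜ : Set (Y ⧸ K)) :=
    QuotientGroup.card_preimage_mk K Qᶜ
  have h4 : Nat.card K * K.index = Nat.card Y := Subgroup.card_mul_index K
  have h5 : ({v | ¬ GG A x v} : Set Y).ncard ≤ (1/100 : ℝ) * Nat.card Y := by
    have := pr_not_GG hx
    rw [pr_eq_ncard, div_le_iff₀ (by exact_mod_cast Fintype.card_pos), ← Nat.card_eq_fintype_card] at this
    exact this
  have h6 : ((QuotientGroup.mk : Y → Y ⧸ K) ⁻¹' Qᶜ).ncard ≤ ({v | ¬ GG A x v} : Set Y).ncard :=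
    Set.ncard_le_ncard h2 (Set.toFinite _)
  rw [← Nat.card_coe_set_eq, h3, Nat.card_coe_set_eq] at h6
  have hKpos : (0:ℝ) < Nat.card K := by exact_mod_cast Nat.card_pos
  have h7 : ((Nat.card K : ℝ) * (Qᶜ.ncard : ℝ)) ≤ (1/100 : ℝ) * ((Nat.card K : ℝ) * (K.index : ℝ)) := by
    have h6' : ((Nat.card K : ℝ) * (Qᶜ.ncard : ℝ)) ≤ (({v | ¬ GG A x v} : Set Y).ncard : ℝ) := by
      exact_mod_cast h6
    have h4' : ((Nat.card K : ℝ) * (K.index : ℝ)) = Nat.card Y := by exact_mod_cast h4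
    rw [h4']; linarith
  have h8 : (Qᶜ.ncard : ℝ) ≤ (1/100) * (K.index : ℝ) := by
    have : (Nat.card K : ℝ) * (Qᶜ.ncard : ℝ) ≤ (Nat.card K : ℝ) * ((1/100) * (K.index : ℝ)) := by linarith
    exact le_of_mul_le_mul_left this hKpos
  have h1' : (Q.ncard : ℝ) + (Qᶜ.ncard : ℝ) = K.index := by exact_mod_cast h1
  linarith

lemma index_pow (hY : ∀ u : Y, u * u = 1) (K : Subgroup Y) : ∃ i, K.index = 2 ^ i := by
  have h : IsPGroup 2 Y := by
    intro g
    refine ⟨1, ?_⟩
    rw [pow_one, pow_two]; exact hY g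
  exact IsPGroup.index h K

lemma meet {A : Y → Perm α} {x y : α} {a b : Y} (ha : GG A x a) (hb : GG A y b)
    (hab : A a x = A b y) (v : Y) (hva : GG A x (v * a)) (hvb : GG A y (v * b)) :
    A (v * a) x = A (v * b) y := by
  by_contra hne
  have h1 : pr (fun u : Y => A (u * a) x ≠ A (u * b) y) ≤ bet A a x + bet A b y := by
    apply pr_le_add
    intro u hu
    by_contra hc
    push Not at hc
    apply hu
    rw [← hc.1, ← hc.2, hab]
  have h2 : pr (fun u : Y => A (u * (v * a)) x ≠ A (u * (v * b)) y) = pr (fun u : Y => A (u * a) x ≠ A (u * b) y) := by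
    have := pr_equiv (Equiv.mulRight v) (fun u : Y => A (u * a) x ≠ A (u * b) y)
    simp only [Equiv.coe_mulRight] at this
    rw [← this]
    apply pr_congr
    intro u
    rw [mul_assoc, mul_assoc]
  have h3 : pr (fun u : Y => A u (A (v * a) x) ≠ A u (A (v * b) y)) = 1 :=
    pr_eq_one (fun u h => hne ((A u).injective h))
  have h4 : pr (fun u : Y => A u (A (v * a) x) ≠ A u (A (v * b) y)) ≤
      bet A (v * a) x + bet A (v * b) y + pr (fun u : Y => A (u * (v * a)) x ≠ A (u * (v * b)) y) := by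
    apply pr_le_add3
    intro u hu
    by_contra hc
    push Not at hc
    apply hu
    rw [hc.1, hc.2.1, hc.2.2]
  unfold GG at *
  linarith

def Rel (A : Y → Perm α) (x y : α) : Prop := ∃ a b, GG A x a ∧ GG A y b ∧ A a x = A b y

lemma Rel.symm {A : Y → Perm α} {x y : α} (h : Rel A x y) : Rel A y x := by
  obtain ⟨a, b, ha, hb, hab⟩ := h
  exact ⟨b, a, hb, ha, hab.symm⟩

lemma GG_one {A : Y → Perm α} (A1 : A 1 = 1) (x : α) : GG A x 1 := by
  have : bet A 1 x = 0 := pr_eq_zero (by simp [A1])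
  unfold GG; rw [this]; norm_num

lemma Rel.refl {A : Y → Perm α} (A1 : A 1 = 1) (x : α) : Rel A x x :=
  ⟨1, 1, GG_one A1 x, GG_one A1 x, rfl⟩

lemma Rel.frac {A : Y → Perm α} {x y : α} (hx : Good A x) (hy : Good A y) (h : Rel A x y) :
    pr (fun v => A v y ∉ RR A x) ≤ 1/50 := by
  obtain ⟨a, b, ha, hb, hab⟩ := h
  have h1 := pr_equiv (Equiv.mulRight b) (fun v => A v y ∉ RR A x)
  simp only [Equiv.coe_mulRight] at h1
  rw [← h1]
  have h2 : pr (fun v => A (v * b) y ∉ RR A x) ≤ pr (fun v => ¬ GG A x (v * a)) + pr (fun v => ¬ GG A y (v * b)) := by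
    apply pr_le_add
    intro v hv
    by_contra hc
    push Not at hc
    apply hv
    exact ⟨v * a, hc.1, meet ha hb hab v hc.1 hc.2⟩
  have h3 := pr_not_GG_mul hx a
  have h4 := pr_not_GG_mul hy b
  linarith

lemma Rel.trans {A : Y → Perm α} {x y z : α} (hx : Good A x) (hy : Good A y) (hz : Good A z)
    (h : Rel A x y) (h' : Rel A y z) : Rel A x z := by
  have h1 := h.frac hx hy
  have h2 := h'.symm.frac hz hy
  have h3 : pr (fun v => A v y ∉ RR A x ∨ A v y ∉ RR A z) < 1 := by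
    have := pr_or_le (fun v => A v y ∉ RR A x) (fun v => A v y ∉ RR A z)
    linarith
  obtain ⟨v, hv⟩ := exists_of_pr_lt h3
  push Not at hv
  obtain ⟨⟨a, ha, hax⟩, ⟨b, hb, hbz⟩⟩ := hv
  exact ⟨a, b, ha, hb, hax.trans hbz.symm⟩

/-- unions of clusters -/
def Closed (A : Y → Perm α) (S : Set α) : Prop :=
  (∀ x ∈ S, Good A x) ∧ ∀ x ∈ S, ∀ y, Good A y → Rel A x y → y ∈ S

lemma Closed.inv {A : Y → Perm α} (A1 : A 1 = 1) {ε : ℝ}
    (hA : ∀ u v, hd (A u * A v) (A (u * v)) ≤ ε) {S : Set α} (hS : Closed A S) (v : Y) :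
    pr (fun x => x ∈ S ∧ A v x ∉ S) ≤ 1010 * ε := by
  have h1 : pr (fun x => x ∈ S ∧ A v x ∉ S) ≤ pr (fun x => ¬ Good A (A v x)) + pr (fun x => ¬ GG A x v) := by
    apply pr_le_add
    rintro x ⟨hx, hvx⟩
    by_contra hc
    push Not at hc
    apply hvx
    apply hS.2 x hx _ hc.1
    exact ⟨v, 1, hc.2, GG_one A1 _, by simp [A1]⟩
  have h2 : pr (fun x => ¬ Good A (A v x)) = pr (fun x => ¬ Good A x) := pr_equiv (A v) (fun x => ¬ Good A x)
  have h3 := pr_not_Good A hA
  have h4 := pr_not_GG_v A hA v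
  linarith

theorem near_action_pow [Nonempty α] (hY : ∀ u : Y, u * u = 1) (A : Y → Perm α) (A1 : A 1 = 1) {ε : ℝ}
    (hε : ε ≤ 1/10000000) (hA : ∀ u v, hd (A u * A v) (A (u * v)) ≤ ε)
    (T : ∀ S : Set α, (∀ v, pr (fun x => x ∈ S ∧ A v x ∉ S) ≤ 1010 * ε) →
      pr (fun x => x ∈ S) ≤ 1/1000 ∨ 999/1000 ≤ pr (fun x => x ∈ S)) :
    ∃ i : ℕ, (9/10 : ℝ) * Fintype.card α ≤ 2 ^ i ∧ (2:ℝ) ^ i ≤ 11/10 * Fintype.card α := by
  classical
  have hGood := pr_not_Good A hA
  -- a maximal small closed set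
  have hne : Nonempty {S : Set α // Closed A S ∧ pr (fun x => x ∈ S) ≤ 1/1000} := by
    refine ⟨⟨∅, ⟨by simp, by simp⟩, ?_⟩⟩
    have : pr (fun x : α => x ∈ (∅ : Set α)) = 0 := pr_eq_zero (by simp)
    rw [this]; norm_num
  obtain ⟨⟨S, hS, hSs⟩, hmax⟩ := Finite.exists_max
    (fun S : {S : Set α // Closed A S ∧ pr (fun x => x ∈ S) ≤ 1/1000} => S.1.ncard)
  have h1 : pr (fun x => ¬ Good A x ∨ x ∈ S) < 1 := by
    have := pr_or_le (fun x => ¬ Good A x) (fun x => x ∈ S)
    linarith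
  obtain ⟨x, hx⟩ := exists_of_pr_lt h1
  push Not at hx
  obtain ⟨hxG, hxS⟩ := hx
  set C : Set α := {y | Good A y ∧ Rel A x y} with hC
  have hxC : x ∈ C := ⟨hxG, Rel.refl A1 x⟩
  have hSC : Closed A (S ∪ C) := by
    constructor
    · rintro y (hy | hy)
      · exact hS.1 y hy
      · exact hy.1
    · rintro y (hy | hy) z hz hyz
      · exact Or.inl (hS.2 y hy z hz hyz)
      · exact Or.inr ⟨hz, Rel.trans hxG hy.1 hz hy.2 hyz⟩
  have hbig : 999/1000 ≤ pr (fun x => x ∈ S ∪ C) := by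
    rcases T (S ∪ C) (fun v => hSC.inv A1 hA v) with h | h
    · exfalso
      have h2 := hmax ⟨S ∪ C, hSC, h⟩
      simp only at h2
      have h3 : S.ncard < (S ∪ C).ncard := by
        apply Set.ncard_lt_ncard _ (Set.toFinite _)
        refine ⟨Set.subset_union_left, fun hsub => hxS (hsub (Or.inr hxC))⟩
      omega
    · exact h
  have hCbig : 998/1000 ≤ pr (fun x => x ∈ C) := by
    have h2 : pr (fun x => x ∈ S ∪ C) ≤ pr (fun x => x ∈ S) + pr (fun x => x ∈ C) :=
      pr_le_add (fun x hx => hx)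
    linarith
  -- the near-orbit of x is nearly everything
  have hR : 978/1000 ≤ pr (fun z => z ∈ RR A x) := by
    have h2 : Ex (fun v : Y => pr (fun y => A v y ∈ RR A x)) = pr (fun z => z ∈ RR A x) := by
      have : (fun v : Y => pr (fun y => A v y ∈ RR A x)) = fun _ => pr (fun z => z ∈ RR A x) := by
        funext v; exact pr_equiv (A v) (fun z => z ∈ RR A x)
      rw [this]; exact Ex_const _
    rw [← h2, ← Ex_pr_comm]
    have h3 : (49/50 : ℝ) * pr (fun y => y ∈ C) ≤ Ex (fun y => pr (fun v : Y => A v y ∈ RR A x)) := by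
      unfold pr
      rw [← Ex_mul_left]
      apply Ex_mono
      intro y
      by_cases hy : y ∈ C
      · have h4 := Rel.frac hxG hy.1 hy.2
        have h5 := pr_not (fun v : Y => A v y ∉ RR A x)
        have h6 : pr (fun v : Y => ¬ (A v y ∉ RR A x)) = pr (fun v : Y => A v y ∈ RR A x) :=
          pr_congr (fun v => not_not)
        have h7 : (49/50 : ℝ) ≤ pr (fun v : Y => A v y ∈ RR A x) := by linarith
        unfold pr at h7
        simp only [hy, if_true, mul_one]
        exact h7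
      · simp only [hy, if_false, mul_zero]
        exact pr_nonneg _
    linarith
  obtain ⟨i, hi⟩ := index_pow hY (Kx hxG)
  have hN : (0:ℝ) < Fintype.card α := by exact_mod_cast Fintype.card_pos
  rw [pr_eq_ncard, le_div_iff₀ hN] at hR
  have hR' : ({z | z ∈ RR A x} : Set α) = RR A x := rfl
  rw [hR'] at hR
  have h8 : ((RR A x).ncard : ℝ) ≤ Fintype.card α := by
    have : (RR A x).ncard ≤ Nat.card α := by
      rw [← Set.ncard_univ]
      exact Set.ncard_le_ncard (Set.subset_univ _) (Set.toFinite _)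
    rw [Nat.card_eq_fintype_card] at this
    exact_mod_cast this
  have h9 : ((RR A x).ncard : ℝ) ≤ 2 ^ i := by
    have := RR_le_index hxG
    rw [hi] at this
    exact_mod_cast this
  have h10 := index_le_RR hxG
  rw [hi] at h10
  push_cast at h10
  refine ⟨i, ?_, ?_⟩
  · linarith
  · linarith

end NA

end Pool.Agent.H763sn
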