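import Mathlib

/-!
Averages `Ex f` and proportions `pr p` over finite types, and the Hamming distance `hd` on
permutations.
-/

set_option autoImplicit false

namespace Pool.Agent.H763sn

open Equiv

section Prob

variable {β γ : Type} [Fintype β] [Fintype γ]

/-- average of a real function over a finite type -/
noncomputable def Ex (f : β → ℝ) : ℝ := (∑ x, f x) / (Fintype.card β : ℝ)

open Classical in
/-- proportion of points of a finite type satisfying a predicate -/
noncomputable def pr (p : β → Prop) : ℝ := Ex (fun x => if p x then (1:ℝ) else 0)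

lemma Ex_add (f g : β → ℝ) : Ex (fun x => f x + g x) = Ex f + Ex g := by
  unfold Ex; rw [Finset.sum_add_distrib, add_div]

lemma Ex_mul_left (c : ℝ) (f : β → ℝ) : Ex (fun x => c * f x) = c * Ex f := by
  unfold Ex; rw [← Finset.mul_sum, mul_div_assoc]

lemma Ex_mono {f g : β → ℝ} (h : ∀ x, f x ≤ g x) : Ex f ≤ Ex g := by
  unfold Ex
  apply div_le_div_of_nonneg_right (Finset.sum_le_sum (fun x _ => h x)) (by positivity)

lemma Ex_const [Nonempty β] (c : ℝ) : Ex (fun _ : β => c) = c := by
  unfold Ex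
  rw [Finset.sum_const, Finset.card_univ, nsmul_eq_mul]
  have : (Fintype.card β : ℝ) ≠ 0 := by exact_mod_cast Fintype.card_ne_zero
  field_simp

lemma Ex_zero : Ex (fun _ : β => (0:ℝ)) = 0 := by
  unfold Ex; simp

lemma Ex_nonneg {f : β → ℝ} (h : ∀ x, 0 ≤ f x) : 0 ≤ Ex f := by
  rw [← Ex_zero (β := β)]; exact Ex_mono h

lemma Ex_le [Nonempty β] {f : β → ℝ} {c : ℝ} (h : ∀ x, f x ≤ c) : Ex f ≤ c := by
  rw [← Ex_const (β := β) c]; exact Ex_mono h

lemma le_Ex [Nonempty β] {f : β → ℝ} {c : ℝ} (h : ∀ x, c ≤ f x) : c ≤ Ex f := by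
  rw [← Ex_const (β := β) c]; exact Ex_mono h

lemma Ex_comm (f : β → γ → ℝ) : Ex (fun x => Ex (fun y => f x y)) = Ex (fun y => Ex (fun x => f x y)) := by
  unfold Ex
  rw [← Finset.sum_div, ← Finset.sum_div, Finset.sum_comm, div_div, div_div, mul_comm]

lemma Ex_equiv (e : β ≃ γ) (f : γ → ℝ) : Ex (fun x => f (e x)) = Ex f := by
  unfold Ex
  rw [Fintype.card_congr e]
  congr 1
  exact Fintype.sum_equiv e _ _ (fun x => rfl)

lemma pr_nonneg (p : β → Prop) : 0 ≤ pr p := by
  apply Ex_nonneg; intro x; split <;> norm_num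

lemma pr_le_one (p : β → Prop) : pr p ≤ 1 := by
  rcases isEmpty_or_nonempty β with h | h
  · unfold pr Ex; simp
  · apply Ex_le; intro x; split <;> norm_num

lemma pr_mono {p q : β → Prop} (h : ∀ x, p x → q x) : pr p ≤ pr q := by
  apply Ex_mono; intro x
  by_cases hp : p x
  · simp [hp, h x hp]
  · simp only [hp, if_false]; split <;> norm_num

lemma pr_congr {p q : β → Prop} (h : ∀ x, p x ↔ q x) : pr p = pr q :=
  le_antisymm (pr_mono fun x hx => (h x).1 hx) (pr_mono fun x hx => (h x).2 hx)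

lemma pr_or_le (p q : β → Prop) : pr (fun x => p x ∨ q x) ≤ pr p + pr q := by
  unfold pr; rw [← Ex_add]
  apply Ex_mono; intro x
  by_cases hp : p x <;> by_cases hq : q x <;> simp [hp, hq]

lemma pr_le_add {p q r : β → Prop} (h : ∀ x, p x → q x ∨ r x) : pr p ≤ pr q + pr r :=
  (pr_mono h).trans (pr_or_le q r)

lemma pr_le_add3 {p q r s : β → Prop} (h : ∀ x, p x → q x ∨ r x ∨ s x) :
    pr p ≤ pr q + pr r + pr s := by
  have h1 := pr_le_add (p := p) (q := q) (r := fun x => r x ∨ s x) h
  have h2 := pr_or_le r s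
  linarith

open Classical in
lemma pr_not [Nonempty β] (p : β → Prop) : pr (fun x => ¬ p x) = 1 - pr p := by
  have : pr p + pr (fun x => ¬ p x) = 1 := by
    unfold pr; rw [← Ex_add]
    refine Eq.trans ?_ (Ex_const (β := β) 1)
    congr 1
    funext x; by_cases hp : p x <;> simp [hp]
  linarith

open Classical in
lemma pr_equiv (e : β ≃ γ) (p : γ → Prop) : pr (fun x => p (e x)) = pr p := by
  unfold pr; exact Ex_equiv e (fun x => if p x then (1:ℝ) else 0)

lemma pr_true [Nonempty β] : pr (fun _ : β => True) = 1 := by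
  unfold pr; simp [Ex_const]

lemma pr_eq_one [Nonempty β] {p : β → Prop} (h : ∀ x, p x) : pr p = 1 := by
  rw [← pr_true (β := β)]; exact pr_congr (fun x => by simp [h x])

lemma pr_eq_zero {p : β → Prop} (h : ∀ x, ¬ p x) : pr p = 0 := by
  unfold pr; simp [h, Ex_zero]

lemma exists_of_pr_lt [Nonempty β] {p : β → Prop} (h : pr p < 1) : ∃ x, ¬ p x := by
  by_contra hc
  push Not at hc
  rw [pr_eq_one hc] at h
  exact lt_irrefl _ h

lemma Ex_pr_comm (p : β → γ → Prop) :
    Ex (fun x => pr (fun y => p x y)) = Ex (fun y => pr (fun x => p x y)) := by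
  unfold pr; exact Ex_comm _

lemma markov {f : β → ℝ} (hf : ∀ x, 0 ≤ f x) {t : ℝ} (ht : 0 < t) :
    pr (fun x => t < f x) ≤ Ex f / t := by
  rw [le_div_iff₀ ht, mul_comm]
  unfold pr
  rw [← Ex_mul_left]
  apply Ex_mono; intro x
  by_cases h : t < f x
  · simp [h]; exact h.le
  · simp [h]; exact hf x

lemma pr_eq_card (p : β → Prop) [DecidablePred p] :
    pr p = ((Finset.univ.filter p).card : ℝ) / Fintype.card β := by
  unfold pr Ex
  congr 1
  rw [Finset.card_filter]
  push_cast
  apply Finset.sum_congr rfl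
  intro x _
  by_cases h : p x <;> simp [h]

end Prob

section Ham

variable {α : Type} [Fintype α]

/-- normalised Hamming distance -/
noncomputable def hd (a b : Perm α) : ℝ := pr (fun x => a x ≠ b x)

lemma hd_nonneg (a b : Perm α) : 0 ≤ hd a b := pr_nonneg _
lemma hd_le_one (a b : Perm α) : hd a b ≤ 1 := pr_le_one _
lemma hd_self (a : Perm α) : hd a a = 0 := pr_eq_zero (by simp)
lemma hd_comm (a b : Perm α) : hd a b = hd b a := pr_congr (fun _ => ne_comm)
lemma hd_triangle (a b c : Perm α) : hd a c ≤ hd a b + hd b c := by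
  apply pr_le_add; intro x h
  by_contra hc; push Not at hc; exact h (hc.1.trans hc.2)

lemma hd_mul_left (c a b : Perm α) : hd (c * a) (c * b) = hd a b :=
  pr_congr (fun x => by simp)

lemma hd_mul_right (a b c : Perm α) : hd (a * c) (b * c) = hd a b :=
  pr_equiv c (fun x => a x ≠ b x)

lemma hd_mul_le (a b a' b' : Perm α) : hd (a * b) (a' * b') ≤ hd a a' + hd b b' := by
  have := hd_triangle (a * b) (a' * b) (a' * b')
  rw [hd_mul_right, hd_mul_left] at this; exact this

lemma hd_inv (a b : Perm α) : hd a⁻¹ b⁻¹ = hd a b := by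
  have h1 : hd a⁻¹ b⁻¹ = hd (a * a⁻¹ * b) (a * b⁻¹ * b) := by
    rw [mul_assoc, mul_assoc, hd_mul_left, hd_mul_right]
  rw [h1]; simp [hd_comm]

lemma hd_conj (w a b : Perm α) : hd (w * a * w⁻¹) (w * b * w⁻¹) = hd a b := by
  rw [hd_mul_right, hd_mul_left]

lemma hd_mul_inv (a b : Perm α) : hd (a * b⁻¹) 1 = hd a b := by
  have : hd (a * b⁻¹) 1 = hd (a * b⁻¹ * b) (1 * b) := (hd_mul_right _ _ _).symm
  rw [this]; simp

lemma hd_comm4 (a b : Perm α) : hd (a * b * a⁻¹ * b⁻¹) 1 = hd (a * b) (b * a) := by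
  have : a * b * a⁻¹ * b⁻¹ = (a * b) * (b * a)⁻¹ := by group
  rw [this, hd_mul_inv]

/-- the commutator defect `hd (ab) (ba)` is symmetric, subadditive -/
lemma hd_comm_comm (a b : Perm α) : hd (a * b) (b * a) = hd (b * a) (a * b) := hd_comm _ _

lemma comm_mul_le (a b c : Perm α) :
    hd (a * b * c) (c * (a * b)) ≤ hd (a * c) (c * a) + hd (b * c) (c * b) := by
  have h1 := hd_triangle (a * b * c) (a * c * b) (c * (a * b))
  have h2 : hd (a * b * c) (a * c * b) = hd (b * c) (c * b) := by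
    rw [mul_assoc, mul_assoc, hd_mul_left]
  have h3 : hd (a * c * b) (c * (a * b)) = hd (a * c) (c * a) := by
    rw [← mul_assoc, hd_mul_right]
  linarith

lemma comm_near (a b a' b' : Perm α) :
    hd (a * b) (b * a) ≤ hd (a' * b') (b' * a') + 2 * hd a a' + 2 * hd b b' := by
  have h1 := hd_mul_le a b a' b'
  have h2 := hd_mul_le b' a' b a
  have h3 := hd_triangle (a * b) (a' * b') (b * a)
  have h4 := hd_triangle (a' * b') (b' * a') (b * a)
  rw [hd_comm b' b, hd_comm a' a] at h2
  linarith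

lemma hd_eq_support {α : Type} [Fintype α] [DecidableEq α] (a : Perm α) :
    (a.support.card : ℝ) / Fintype.card α = hd a 1 := by
  unfold hd
  rw [pr_eq_card]
  rfl

end Ham

end Pool.Agent.H763sn
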