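import Pool.Agent.H763_sn.NearAction

/-!
From a discrete near-group of near-involutions in a symmetric group to a near-action of a finite
group, and the resulting restriction on the size of the set.
-/

set_option autoImplicit false
set_option linter.unusedSectionVars false

namespace Pool.Agent.H763sn

open Equiv

section QA

variable {α : Type} [Fintype α]

lemma dich {E : Set (Perm α)} {ε : ℝ}
    (E1 : ∀ e ∈ E, ∀ e' ∈ E, ∃ e'' ∈ E, hd (e * e') e'' ≤ ε)
    (E2 : ∀ e ∈ E, hd (e * e) 1 ≤ ε)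
    (E4 : ∀ e ∈ E, hd e 1 ≤ ε ∨ 1 - ε ≤ hd e 1) (e e' : Perm α) (he : e ∈ E) (he' : e' ∈ E) :
    hd e e' ≤ 3 * ε ∨ 1 - 3 * ε ≤ hd e e' := by
  obtain ⟨f, hf, hff⟩ := E1 e he e' he'
  have h1 := hd_mul_left e e e'
  have h2 := E2 e he
  rcases E4 f hf with h | h
  · left
    have h3 := hd_triangle (e * e) 1 (e * e')
    have h4 := hd_triangle 1 f (e * e')
    rw [hd_comm 1 f, hd_comm f (e * e')] at h4
    linarith
  · right
    have h3 := hd_triangle f (e * e') 1
    have h4 := hd_triangle (e * e') (e * e) 1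
    rw [hd_comm f (e * e')] at h3
    rw [hd_comm (e * e') (e * e)] at h4
    linarith

theorem exists_near_action (E : Set (Perm α)) {ε : ℝ} (hε0 : 0 ≤ ε) (hε : ε ≤ 1/100)
    (E0 : (1 : Perm α) ∈ E)
    (E1 : ∀ e ∈ E, ∀ e' ∈ E, ∃ e'' ∈ E, hd (e * e') e'' ≤ ε)
    (E2 : ∀ e ∈ E, hd (e * e) 1 ≤ ε)
    (E4 : ∀ e ∈ E, hd e 1 ≤ ε ∨ 1 - ε ≤ hd e 1) :
    ∃ (Y : Type) (_ : Group Y) (_ : Fintype Y) (A : Y → Perm α), (∀ u : Y, u * u = 1) ∧ A 1 = 1 ∧
      (∀ u, A u ∈ E) ∧ (∀ u v, hd (A u * A v) (A (u * v)) ≤ 4 * ε) ∧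
      (∀ e ∈ E, ∃ u, hd e (A u) ≤ 3 * ε) := by
  classical
  have hD := dich E1 E2 E4
  have near : ∀ e e' : E, hd e.1 e'.1 ≤ 1/2 → hd e.1 e'.1 ≤ 3 * ε := by
    intro e e' h
    rcases hD e.1 e'.1 e.2 e'.2 with h1 | h1
    · exact h1
    · exfalso; linarith
  let s : Setoid E :=
    { r := fun a b => hd a.1 b.1 ≤ 3 * ε
      iseqv := by
        refine ⟨?_, ?_, ?_⟩
        · intro a; rw [hd_self]; linarith
        · intro a b h; rw [hd_comm]; exact h
        · intro a b c h h'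
          apply near
          have := hd_triangle a.1 b.1 c.1
          linarith }
  have hm : ∀ a b : E, ∃ c : E, hd (a.1 * b.1) c.1 ≤ ε := by
    intro a b
    obtain ⟨c, hc, h⟩ := E1 a.1 a.2 b.1 b.2
    exact ⟨⟨c, hc⟩, h⟩
  choose m hm using hm
  have hmr : ∀ a b c d : E, hd a.1 c.1 ≤ 3 * ε → hd b.1 d.1 ≤ 3 * ε → hd (m a b).1 (m c d).1 ≤ 3 * ε := by
    intro a b c d h h'
    apply near
    have h1 := hm a b
    have h2 := hm c d
    have h3 := hd_mul_le a.1 b.1 c.1 d.1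
    have h4 := hd_triangle (m a b).1 (a.1 * b.1) (m c d).1
    have h5 := hd_triangle (a.1 * b.1) (c.1 * d.1) (m c d).1
    have h6 := hd_comm (m a b).1 (a.1 * b.1)
    linarith
  let one : E := ⟨1, E0⟩
  let Y := Quotient s
  let _ : Mul Y := ⟨Quotient.map₂ m (fun a b h c d h' => hmr a c b d h h')⟩
  let _ : One Y := ⟨Quotient.mk s one⟩
  let _ : Inv Y := ⟨id⟩
  have mul_mk : ∀ a b : E, (Quotient.mk s a : Y) * Quotient.mk s b = Quotient.mk s (m a b) := fun a b => rfl
  have one_mk : (1 : Y) = Quotient.mk s one := rfl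
  have mk_eq : ∀ a b : E, hd a.1 b.1 ≤ 1/2 → (Quotient.mk s a : Y) = Quotient.mk s b := by
    intro a b h
    exact Quotient.sound (near a b h)
  have eq_mk : ∀ a b : E, (Quotient.mk s a : Y) = Quotient.mk s b → hd a.1 b.1 ≤ 3 * ε := by
    intro a b h
    exact Quotient.exact h
  let _ : Group Y := Group.ofLeftAxioms
    (by
      intro a b c
      induction a using Quotient.inductionOn with | _ a =>
      induction b using Quotient.inductionOn with | _ b =>
      induction c using Quotient.inductionOn with | _ c =>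
      rw [mul_mk, mul_mk, mul_mk, mul_mk]
      apply mk_eq
      have h1 := hm (m a b) c
      have h2 := hm a b
      have h3 := hm a (m b c)
      have h4 := hm b c
      have h5 := hd_mul_right (a.1 * b.1) (m a b).1 c.1
      have h6 := hd_mul_left a.1 (b.1 * c.1) (m b c).1
      rw [← mul_assoc] at h6
      have h7 := hd_triangle (m (m a b) c).1 ((m a b).1 * c.1) (m a (m b c)).1
      have h8 := hd_triangle ((m a b).1 * c.1) (a.1 * b.1 * c.1) (m a (m b c)).1
      have h9 := hd_triangle (a.1 * b.1 * c.1) (a.1 * (m b c).1) (m a (m b c)).1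
      have h10 := hd_comm (m (m a b) c).1 ((m a b).1 * c.1)
      have h11 := hd_comm ((m a b).1 * c.1) (a.1 * b.1 * c.1)
      linarith)
    (by
      intro a
      induction a using Quotient.inductionOn with | _ a =>
      rw [one_mk, mul_mk]
      apply mk_eq
      have h1 := hm one a
      have h2 : one.1 * a.1 = a.1 := one_mul _
      rw [h2, hd_comm] at h1
      linarith)
    (by
      intro a
      induction a using Quotient.inductionOn with | _ a =>
      change (Quotient.mk s a : Y) * Quotient.mk s a = 1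
      rw [one_mk, mul_mk]
      apply mk_eq
      have h1 := hm a a
      have h2 := E2 a.1 a.2
      have h3 := hd_triangle (m a a).1 (a.1 * a.1) 1
      have h4 := hd_comm (m a a).1 (a.1 * a.1)
      change hd (m a a).1 1 ≤ 1/2
      linarith)
  have : Finite Y := Quotient.finite s
  let _ : Fintype Y := Fintype.ofFinite Y
  let A : Y → Perm α := fun u => if u = 1 then 1 else (Quotient.out u).1
  have hA1 : A 1 = 1 := by simp [A]
  have hAE : ∀ u, ∃ h : A u ∈ E, (Quotient.mk s ⟨A u, h⟩ : Y) = u := by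
    intro u
    by_cases hu : u = 1
    · subst hu
      refine ⟨by rw [hA1]; exact E0, ?_⟩
      refine Eq.trans ?_ one_mk.symm
      apply mk_eq
      change hd (A 1) 1 ≤ 1/2
      rw [hA1, hd_self]; norm_num
    · have h1 : A u = (Quotient.out u).1 := by simp only [A, if_neg hu]
      refine ⟨by rw [h1]; exact (Quotient.out u).2, ?_⟩
      have h2 : (⟨A u, by rw [h1]; exact (Quotient.out u).2⟩ : E) = Quotient.out u := Subtype.ext h1
      rw [h2]
      exact Quotient.out_eq u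
  refine ⟨Y, inferInstance, inferInstance, A, ?_, hA1, fun u => (hAE u).1, ?_, ?_⟩
  · intro u
    have : (u⁻¹ : Y) = u := rfl
    calc u * u = u⁻¹ * u := by rw [this]
      _ = 1 := inv_mul_cancel u
  · intro u v
    obtain ⟨hu, hu'⟩ := hAE u
    obtain ⟨hv, hv'⟩ := hAE v
    obtain ⟨huv, huv'⟩ := hAE (u * v)
    have h1 := hm ⟨A u, hu⟩ ⟨A v, hv⟩
    have h2 : (Quotient.mk s (m ⟨A u, hu⟩ ⟨A v, hv⟩) : Y) = Quotient.mk s ⟨A (u * v), huv⟩ := by
      rw [← mul_mk, hu', hv', huv']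
    have h3 := eq_mk _ _ h2
    have h4 := hd_triangle (A u * A v) (m ⟨A u, hu⟩ ⟨A v, hv⟩).1 (A (u * v))
    simp only at h1 h3
    linarith
  · intro e he
    obtain ⟨hu, hu'⟩ := hAE (Quotient.mk s ⟨e, he⟩)
    refine ⟨Quotient.mk s ⟨e, he⟩, ?_⟩
    have := eq_mk _ _ hu'
    rw [hd_comm]
    exact this

lemma pr_and_add {β : Type} [Fintype β] (p q : β → Prop) :
    pr (fun x => p x ∧ q x) + pr (fun x => p x ∧ ¬ q x) = pr p := by
  classical
  unfold pr
  rw [← Ex_add]
  congr 1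
  funext x
  by_cases hp : p x <;> by_cases hq : q x <;> simp [hp, hq]

lemma pr_flip (e : Perm α) (S : Set α) :
    pr (fun z => z ∉ S ∧ e z ∈ S) = pr (fun z => z ∈ S ∧ e z ∉ S) := by
  have h1 := pr_and_add (fun z : α => z ∈ S) (fun z => e z ∈ S)
  have h2 := pr_and_add (fun z : α => e z ∈ S) (fun z => z ∈ S)
  have h3 : pr (fun z : α => e z ∈ S) = pr (fun z => z ∈ S) := pr_equiv e (fun z => z ∈ S)
  have h4 : pr (fun z : α => z ∈ S ∧ e z ∈ S) = pr (fun z => e z ∈ S ∧ z ∈ S) :=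
    pr_congr (fun z => and_comm)
  have h5 : pr (fun z : α => e z ∈ S ∧ ¬ z ∈ S) = pr (fun z => z ∉ S ∧ e z ∈ S) :=
    pr_congr (fun z => and_comm)
  linarith

lemma exists_derangement (h2 : 2 ≤ Fintype.card α) : ∃ g : Perm α, ∀ x, g x ≠ x := by
  obtain ⟨k, hk⟩ : ∃ k, Fintype.card α = k + 2 := ⟨Fintype.card α - 2, by omega⟩
  let e : α ≃ Fin (k + 2) := Fintype.equivFinOfCardEq hk
  refine ⟨(e.trans (finRotate (k + 2))).trans e.symm, ?_⟩
  intro x hx
  simp only [Equiv.trans_apply, Equiv.symm_apply_eq] at hx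
  rw [finRotate_apply] at hx
  have h3 : (1 : Fin (k + 2)) = 0 := by
    have := congrArg (fun z => z - e x) hx
    simp at this
  exact absurd h3 (by simp)

lemma exists_restricted (S : Set α) (f : Perm α) :
    ∃ g : Perm α, (∀ x, x ∉ S → g x = x) ∧ (∀ x, x ∈ S → f x ∈ S → g x = f x) := by
  classical
  let φ : {x // x ∉ S ∨ (x ∈ S ∧ f x ∈ S)} ≃ {y // y ∉ S ∨ (y ∈ S ∧ f.symm y ∈ S)} :=
    { toFun := fun x => ⟨if x.1 ∈ S then f x.1 else x.1, by
        by_cases h : x.1 ∈ S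
        · rw [if_pos h]
          rcases x.2 with h1 | h1
          · exact absurd h h1
          · right; exact ⟨h1.2, by simpa using h⟩
        · rw [if_neg h]; exact Or.inl h⟩
      invFun := fun y => ⟨if y.1 ∈ S then f.symm y.1 else y.1, by
        by_cases h : y.1 ∈ S
        · rw [if_pos h]
          rcases y.2 with h1 | h1
          · exact absurd h h1
          · right; exact ⟨h1.2, by simpa using h⟩
        · rw [if_neg h]; exact Or.inl h⟩
      left_inv := by
        rintro ⟨x, hx⟩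
        by_cases h : x ∈ S
        · rcases hx with h1 | h1
          · exact absurd h h1
          · simp [h, h1.2]
        · simp [h]
      right_inv := by
        rintro ⟨x, hx⟩
        by_cases h : x ∈ S
        · rcases hx with h1 | h1
          · exact absurd h h1
          · simp [h, h1.2]
        · simp [h] }
  refine ⟨φ.extendSubtype, ?_, ?_⟩
  · intro x hx
    rw [Equiv.extendSubtype_apply_of_mem φ x (Or.inl hx)]
    simp [φ, hx]
  · intro x hx hfx
    rw [Equiv.extendSubtype_apply_of_mem φ x (Or.inr ⟨hx, hfx⟩)]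
    simp [φ, hx]

theorem size_near_pow (h2 : 2 ≤ Fintype.card α) (E : Set (Perm α)) {ε : ℝ} (hε0 : 0 ≤ ε)
    (hε : ε ≤ 1/100000000)
    (E0 : (1 : Perm α) ∈ E)
    (E1 : ∀ e ∈ E, ∀ e' ∈ E, ∃ e'' ∈ E, hd (e * e') e'' ≤ ε)
    (E2 : ∀ e ∈ E, hd (e * e) 1 ≤ ε)
    (E3 : ∀ e ∈ E, ∀ e' ∈ E, hd (e * e') (e' * e) ≤ ε)
    (E4 : ∀ e ∈ E, hd e 1 ≤ ε ∨ 1 - ε ≤ hd e 1)
    (E5 : ∀ (g : Perm α) (θ : ℝ), (∀ e ∈ E, hd (g * e) (e * g) ≤ θ) → ∃ e ∈ E, hd g e ≤ 4 * θ + ε) :
    ∃ i : ℕ, (9/10 : ℝ) * Fintype.card α ≤ 2 ^ i ∧ (2:ℝ) ^ i ≤ 11/10 * Fintype.card α := by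
  have hne : Nonempty α := by
    rw [← Fintype.card_pos_iff]; omega
  obtain ⟨Y, _, _, A, hY, A1, hAE, hA, hEA⟩ := exists_near_action E hε0 (by linarith) E0 E1 E2 E4
  -- a nontrivial element
  obtain ⟨f, hf, hf1⟩ : ∃ f ∈ E, 1 - ε ≤ hd f 1 := by
    by_contra hc
    push Not at hc
    have hc' : ∀ e ∈ E, hd e 1 ≤ ε := by
      intro e he
      rcases E4 e he with h | h
      · exact h
      · exact absurd (hc e he) (not_lt.mpr h)
    obtain ⟨g, hg⟩ := exists_derangement h2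
    obtain ⟨e, he, hge⟩ := E5 g (2 * ε) (by
      intro e he
      have h1 := comm_near g e g 1
      rw [hd_self, mul_one, one_mul, hd_self] at h1
      have := hc' e he
      linarith)
    have h1 : hd g 1 = 1 := pr_eq_one (fun x => hg x)
    have h3 := hd_triangle g e 1
    have h4 := hc' e he
    linarith
  apply near_action_pow hY A A1 (ε := 4 * ε) (by linarith) hA
  intro S hS
  have hSe : ∀ e ∈ E, pr (fun x => x ∈ S ∧ e x ∉ S) ≤ 4043 * ε := by
    intro e he
    obtain ⟨u, hu⟩ := hEA e he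
    have h1 : pr (fun x => x ∈ S ∧ e x ∉ S) ≤ pr (fun x => x ∈ S ∧ A u x ∉ S) + hd e (A u) := by
      apply pr_le_add
      rintro x ⟨hx, hex⟩
      by_cases h : e x = A u x
      · left; exact ⟨hx, by rw [← h]; exact hex⟩
      · right; exact h
    have h3 := hS u
    linarith
  obtain ⟨g, hg1, hg2⟩ := exists_restricted S f
  have hcomm : ∀ e ∈ E, hd (g * e) (e * g) ≤ 16173 * ε := by
    intro e he
    have h1 : hd (g * e) (e * g) ≤ pr (fun z => z ∈ S ∧ f z ∉ S) + pr (fun z => e z ∈ S ∧ f (e z) ∉ S)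
        + (pr (fun z => z ∈ S ∧ e z ∉ S) + pr (fun z => z ∉ S ∧ e z ∈ S) + hd (f * e) (e * f)) := by
      have h10 : pr (fun z => (z ∈ S ∧ e z ∉ S) ∨ (z ∉ S ∧ e z ∈ S) ∨ (f * e) z ≠ (e * f) z) ≤
        pr (fun z => z ∈ S ∧ e z ∉ S) + pr (fun z => z ∉ S ∧ e z ∈ S) + hd (f * e) (e * f) :=
        pr_le_add3 (fun z h => h)
      refine le_trans (pr_le_add3 (q := fun z => z ∈ S ∧ f z ∉ S) (r := fun z => e z ∈ S ∧ f (e z) ∉ S)
        (s := fun z => (z ∈ S ∧ e z ∉ S) ∨ (z ∉ S ∧ e z ∈ S) ∨ (f * e) z ≠ (e * f) z) ?_)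
        (by linarith)
      intro z hz
      by_contra hc
      push Not at hc
      obtain ⟨c1, c2, c3, c4, c5⟩ := hc
      apply hz
      simp only [Perm.coe_mul, Function.comp_apply] at *
      by_cases hzS : z ∈ S
      · rw [hg2 (e z) (c3 hzS) (c2 (c3 hzS)), hg2 z hzS (c1 hzS)]
        exact c5
      · rw [hg1 (e z) (c4 hzS), hg1 z hzS]
    have h3 := hSe f hf
    have h4 : pr (fun z => e z ∈ S ∧ f (e z) ∉ S) = pr (fun z => z ∈ S ∧ f z ∉ S) :=
      pr_equiv e (fun z => z ∈ S ∧ f z ∉ S)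
    have h5 := hSe e he
    have h6 := pr_flip e S
    have h7 := E3 f hf e he
    linarith
  obtain ⟨e', he', hge⟩ := E5 g _ hcomm
  rcases E4 e' he' with h | h
  · left
    have h3 := hd_triangle g e' 1
    have h4 : pr (fun x => x ∈ S) ≤ pr (fun x => x ∈ S ∧ f x ∉ S) + hd g 1 + pr (fun x => ¬ (f x ≠ (1 : Perm α) x)) := by
      apply pr_le_add3
      intro x hx
      by_contra hc
      push Not at hc
      obtain ⟨c1, c2, c3⟩ := hc
      apply c3
      rw [← c2, hg2 x hx (c1 hx)]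
    have h5 := pr_not (fun x => f x ≠ (1 : Perm α) x)
    have h6 := hSe f hf
    have h7 : pr (fun x => f x ≠ (1 : Perm α) x) = hd f 1 := rfl
    linarith
  · right
    have h3 := hd_triangle e' g 1
    have h4 : hd g 1 ≤ pr (fun x => x ∈ S) := by
      apply pr_mono
      intro x hx
      by_contra hc
      exact hx (hg1 x hc)
    have h5 := hd_comm e' g
    linarith

end QA

end Pool.Agent.H763sn
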