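import Pool.Agent.H763_sn.ModelExact

/-!
# The sentence and its values

The sentence `phi` is `inf_{s₀,…,s₄,w} body`, with
`body = sup_{a,b} Psi1 + sup_g (inf_{a,b} Psi2 - 2 sup_c Psi3)`.  Write
`dl a = ∑ i < 5, ℓ([a, sᵢ])`, so that `D = {a | dl a small}` is the near-centraliser of the tuple `s`.

* `Psi1` says: elements of `D` nearly commute with each other and with `w D w⁻¹`, nearly have order
  two, and elements `a (w b w⁻¹)` (`a, b ∈ D`) have length near `0` or near `1`.
* `Psi2, Psi3` say: a permutation `g` nearly commuting with all of `D` and `w D w⁻¹` is near some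
  `a (w b w⁻¹)` with `a, b ∈ D`.

For `n = 2^(4(N+1))` the value is `0` (`phi_model`): identify the `n` points with
`V = R² × R²`, `R = 𝔽₂[t]/(t^(N+1))`; the `sᵢ` are four linear maps and one translation, whose
near-centraliser is near the group of translations by `R² × 0` (relative property (T) type argument
with a Fourier transform, constants independent of `N`), `w` swaps the two factors.

For `n = 3·2^j` the value is at least `e0 > 0` (`phi_gap`): if `body < e0` then
`D · w D w⁻¹` gives a uniform near-action of a finite elementary abelian `2`-group on the `n` points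
that is nearly transitive, and then `n` is within 10% of a power of two (`size_near_pow`).
-/

set_option autoImplicit false
set_option linter.unusedSectionVars false

namespace Pool.Agent.H763sn

open Equiv

abbrev Fm (k : ℕ) := (n : ℕ) → (Fin k → Perm (Fin n)) → ℝ

/-- formulas of continuous logic for length groups -/
inductive IsF : (k : ℕ) → Fm k → Prop
  | atom (k : ℕ) (w : FreeGroup (Fin k)) :
      IsF k (fun n x => (((FreeGroup.lift x) w).support.card : ℝ) / (n : ℝ))
  | conn (k m : ℕ) (c : (Fin m → ℝ) → ℝ) (ψ : Fin m → Fm k) (hc : Continuous c)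
      (h : ∀ j, IsF k (ψ j)) : IsF k (fun n x => c (fun j => ψ j n x))
  | sup (k : ℕ) (ψ : Fm (k + 1)) (h : IsF (k + 1) ψ) :
      IsF k (fun n x => ⨆ g : Perm (Fin n), ψ n (Fin.snoc (α := fun _ => Perm (Fin n)) x g))
  | inf (k : ℕ) (ψ : Fm (k + 1)) (h : IsF (k + 1) ψ) :
      IsF k (fun n x => ⨅ g : Perm (Fin n), ψ n (Fin.snoc (α := fun _ => Perm (Fin n)) x g))

lemma isF_hd {k : ℕ} (u v : FreeGroup (Fin k)) :
    IsF k (fun n x => hd ((FreeGroup.lift x) u) ((FreeGroup.lift x) v)) := by
  have h := IsF.atom k (u * v⁻¹)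
  have h2 : (fun (n : ℕ) (x : Fin k → Perm (Fin n)) => (((FreeGroup.lift x) (u * v⁻¹)).support.card : ℝ) / (n : ℝ))
      = (fun n x => hd ((FreeGroup.lift x) u) ((FreeGroup.lift x) v)) := by
    funext n x
    have h3 := hd_eq_support ((FreeGroup.lift x) (u * v⁻¹))
    rw [Fintype.card_fin] at h3
    rw [h3, map_mul, map_inv, hd_mul_inv]
  rw [← h2]; exact h

lemma IsF.add {k : ℕ} {f g : Fm k} (hf : IsF k f) (hg : IsF k g) : IsF k (fun n x => f n x + g n x) := by
  have := IsF.conn k 2 (fun v => v 0 + v 1) ![f, g] (by fun_prop) (by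
    intro j; fin_cases j
    · exact hf
    · exact hg)
  exact this

lemma IsF.sub {k : ℕ} {f g : Fm k} (hf : IsF k f) (hg : IsF k g) : IsF k (fun n x => f n x - g n x) := by
  have := IsF.conn k 2 (fun v => v 0 - v 1) ![f, g] (by fun_prop) (by
    intro j; fin_cases j
    · exact hf
    · exact hg)
  exact this

lemma IsF.cmul {k : ℕ} {f : Fm k} (c : ℝ) (hf : IsF k f) : IsF k (fun n x => c * f n x) := by
  have := IsF.conn k 1 (fun v => c * v 0) ![f] (by fun_prop) (by
    intro j; fin_cases j; exact hf)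
  exact this

lemma IsF.quad {k : ℕ} {f : Fm k} (hf : IsF k f) : IsF k (fun n x => f n x * (1 - f n x)) := by
  have := IsF.conn k 1 (fun v => v 0 * (1 - v 0)) ![f] (by fun_prop) (by
    intro j; fin_cases j; exact hf)
  exact this

section Pieces

variable {k : ℕ} (s : Fin 6 → Fin k)

lemma isF_comm (a b : Fin k) : IsF k (fun _ x => hd (x a * x b) (x b * x a)) := by
  have := isF_hd (FreeGroup.of a * FreeGroup.of b) (FreeGroup.of b * FreeGroup.of a)
  simpa only [map_mul, FreeGroup.lift_apply_of] using this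

lemma isF_dl (a : Fin k) : IsF k (fun _ x => dl (fun i => x (s i)) (x a)) := by
  unfold dl
  exact ((((isF_comm a (s 0)).add (isF_comm a (s 1))).add (isF_comm a (s 2))).add
    (isF_comm a (s 3))).add (isF_comm a (s 4))

lemma isF_Psi1 (a b : Fin k) : IsF k (fun _ x => Psi1 (fun i => x (s i)) (x a) (x b)) := by
  unfold Psi1
  have h1 := isF_comm a b
  have h2 : IsF k (fun _ x => hd (x a * x a) 1) := by
    have := isF_hd (FreeGroup.of a * FreeGroup.of a) 1
    simpa only [map_mul, map_one, FreeGroup.lift_apply_of] using this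
  have h3 : IsF k (fun _ x => hd (x a * cj (fun i => x (s i)) (x b)) (cj (fun i => x (s i)) (x b) * x a)) := by
    unfold cj
    have := isF_hd (FreeGroup.of a * (FreeGroup.of (s 5) * FreeGroup.of b * (FreeGroup.of (s 5))⁻¹))
      ((FreeGroup.of (s 5) * FreeGroup.of b * (FreeGroup.of (s 5))⁻¹) * FreeGroup.of a)
    simpa only [map_mul, map_inv, FreeGroup.lift_apply_of] using this
  have h4 : IsF k (fun _ x => hd (x a * cj (fun i => x (s i)) (x b)) 1) := by
    unfold cj
    have := isF_hd (FreeGroup.of a * (FreeGroup.of (s 5) * FreeGroup.of b * (FreeGroup.of (s 5))⁻¹)) 1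
    simpa only [map_mul, map_inv, map_one, FreeGroup.lift_apply_of] using this
  exact (((h1.add h2).add h3).add h4.quad).sub (((isF_dl s a).add (isF_dl s b)).cmul cK)

lemma isF_Psi2 (g a b : Fin k) : IsF k (fun _ x => Psi2 (fun i => x (s i)) (x g) (x a) (x b)) := by
  unfold Psi2
  have h4 : IsF k (fun _ x => hd (x g) (x a * cj (fun i => x (s i)) (x b))) := by
    unfold cj
    have := isF_hd (FreeGroup.of g) (FreeGroup.of a * (FreeGroup.of (s 5) * FreeGroup.of b * (FreeGroup.of (s 5))⁻¹))
    simpa only [map_mul, map_inv, FreeGroup.lift_apply_of] using this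
  exact h4.add (((isF_dl s a).add (isF_dl s b)).cmul cM)

lemma isF_Psi3 (g c : Fin k) : IsF k (fun _ x => Psi3 (fun i => x (s i)) (x g) (x c)) := by
  unfold Psi3
  have h3 : IsF k (fun _ x => hd (x g * cj (fun i => x (s i)) (x c)) (cj (fun i => x (s i)) (x c) * x g)) := by
    unfold cj
    have := isF_hd (FreeGroup.of g * (FreeGroup.of (s 5) * FreeGroup.of c * (FreeGroup.of (s 5))⁻¹))
      ((FreeGroup.of (s 5) * FreeGroup.of c * (FreeGroup.of (s 5))⁻¹) * FreeGroup.of g)
    simpa only [map_mul, map_inv, FreeGroup.lift_apply_of] using this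
  exact ((isF_comm g c).add h3).sub ((isF_dl s c).cmul cK4)

end Pieces

lemma isF_Q1 : IsF 6 (fun _ x => ⨆ a, ⨆ b, Psi1 x a b) := by
  have h8 := isF_Psi1 (k := 8) (fun i => i.castSucc.castSucc) (Fin.last 6).castSucc (Fin.last 7)
  have h7 := IsF.sup 7 _ h8
  simp only [Fin.snoc_castSucc, Fin.snoc_last] at h7
  have h6 := IsF.sup 6 _ h7
  simpa only [Fin.snoc_castSucc, Fin.snoc_last] using h6

lemma isF_Q2a : IsF 7 (fun _ y => ⨅ a, ⨅ b, Psi2 (fun i => y i.castSucc) (y (Fin.last 6)) a b) := by
  have h9 := isF_Psi2 (k := 9) (fun i => i.castSucc.castSucc.castSucc) (Fin.last 6).castSucc.castSucc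
    (Fin.last 7).castSucc (Fin.last 8)
  have h8 := IsF.inf 8 _ h9
  simp only [Fin.snoc_castSucc, Fin.snoc_last] at h8
  have h7 := IsF.inf 7 _ h8
  simpa only [Fin.snoc_castSucc, Fin.snoc_last] using h7

lemma isF_Q2b : IsF 7 (fun _ y => ⨆ c, Psi3 (fun i => y i.castSucc) (y (Fin.last 6)) c) := by
  have h8 := isF_Psi3 (k := 8) (fun i => i.castSucc.castSucc) (Fin.last 6).castSucc (Fin.last 7)
  have h7 := IsF.sup 7 _ h8
  simpa only [Fin.snoc_castSucc, Fin.snoc_last] using h7

lemma isF_body : IsF 6 (fun _ x => body x) := by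
  unfold body
  apply isF_Q1.add
  have h7 := isF_Q2a.sub (isF_Q2b.cmul 2)
  have h6 := IsF.sup 6 _ h7
  simpa only [Fin.snoc_castSucc, Fin.snoc_last] using h6

/-- existential closure -/
noncomputable def infs : (k : ℕ) → Fm k → Fm 0
  | 0, ψ => ψ
  | k + 1, ψ => infs k (fun n x => ⨅ g : Perm (Fin n), ψ n (Fin.snoc (α := fun _ => Perm (Fin n)) x g))

lemma isF_infs : ∀ (k : ℕ) (ψ : Fm k), IsF k ψ → IsF 0 (infs k ψ)
  | 0, _, h => h
  | k + 1, _, h => isF_infs k _ (IsF.inf k _ h)

lemma infs_le : ∀ (k : ℕ) (ψ : Fm k) (n : ℕ) (x : Fin k → Perm (Fin n)), infs k ψ n Fin.elim0 ≤ ψ n x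
  | 0, ψ, n, x => by
      have : x = Fin.elim0 := Subsingleton.elim _ _
      rw [this]; exact le_refl _
  | k + 1, ψ, n, x => by
      refine (infs_le k _ n (Fin.init x)).trans ?_
      refine (ciInf_le (bB _) (x (Fin.last k))).trans (le_of_eq ?_)
      have h := Fin.snoc_init_self x
      exact congrArg (ψ n) h

lemma le_infs : ∀ (k : ℕ) (ψ : Fm k) (n : ℕ) (c : ℝ), (∀ x, c ≤ ψ n x) → c ≤ infs k ψ n Fin.elim0
  | 0, _, _, _, h => h _
  | k + 1, _, n, c, h => le_infs k _ n c (fun _ => le_ciInf (fun _ => h _))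

/-- the sentence -/
noncomputable def phi : Fm 0 := infs 6 (fun _ x => body x)

lemma isF_phi : IsF 0 phi := isF_infs 6 _ isF_body

lemma phi_model (N : ℕ) : phi (Fintype.card (VV N)) Fin.elim0 ≤ 0 := by
  refine (infs_le 6 _ _ (fun i => (Fintype.equivFin (VV N)).permCongrHom (sx i))).trans ?_
  exact ((exact_model (N := N)).transport (Fintype.equivFin (VV N))).body_le

lemma phi_gap (j : ℕ) : e0 ≤ phi (3 * 2 ^ j) Fin.elim0 := by
  apply le_infs
  intro x
  by_contra hc
  push Not at hc
  have h2 : 2 ≤ Fintype.card (Fin (3 * 2 ^ j)) := by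
    rw [Fintype.card_fin]
    have : 1 ≤ 2 ^ j := Nat.one_le_two_pow
    omega
  obtain ⟨i, hi1, hi2⟩ := loose x h2 hc
  rw [Fintype.card_fin] at hi1 hi2
  push_cast at hi1 hi2
  have hj : (0:ℝ) < 2 ^ j := by positivity
  rcases le_or_gt i j with h | h
  · have : (2:ℝ) ^ i ≤ 2 ^ j := pow_le_pow_right₀ (by norm_num) h
    linarith
  · rcases Nat.lt_or_ge i (j + 2) with h3 | h3
    · have : i = j + 1 := by omega
      subst this
      rw [pow_succ] at hi1
      linarith
    · have : (2:ℝ) ^ (j + 2) ≤ 2 ^ i := pow_le_pow_right₀ (by norm_num) h3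
      rw [pow_add] at this
      linarith

theorem phi_diverges : ¬ ∃ L : ℝ, Filter.Tendsto (fun n : ℕ => phi n Fin.elim0) Filter.atTop (nhds L) := by
  rintro ⟨L, hL⟩
  have h1 : Filter.Tendsto (fun j : ℕ => 3 * 2 ^ j) Filter.atTop Filter.atTop := by
    apply Filter.tendsto_atTop_mono (f := fun j : ℕ => j) _ Filter.tendsto_id
    intro j
    have := Nat.lt_two_pow_self (n := j)
    omega
  have h2 : e0 ≤ L := ge_of_tendsto' (hL.comp h1) (fun j => phi_gap j)
  have h3 : Filter.Tendsto (fun N : ℕ => Fintype.card (VV N)) Filter.atTop Filter.atTop := by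
    apply Filter.tendsto_atTop_mono (f := fun j : ℕ => j) _ Filter.tendsto_id
    intro N
    have h4 : Fintype.card (Rg N) = 2 ^ (N + 1) := by simp
    have h5 : Fintype.card (Rg N) ≤ Fintype.card (VV N) :=
      Fintype.card_le_of_injective (fun r => ((r, 0), (0, 0)) : Rg N → VV N) (by
        intro a b hab; simpa using hab)
    have := Nat.lt_two_pow_self (n := N + 1)
    omega
  have h6 : L ≤ 0 := le_of_tendsto' (hL.comp h3) (fun N => phi_model N)
  have : (0:ℝ) < e0 := by unfold e0; norm_num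
  linarith

end Pool.Agent.H763sn
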